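import Pool.Agent.Y957.VK.Fin1
import Pool.Agent.Y851.HZ.T1

/-! Sums over windows `∑ g(log n - v) n^{-1+iτ}` for `e^v ≤ |τ| ≤ exp (v^(1+δ))`, by Vinogradov's method. -/

set_option autoImplicit false

namespace Pool.Agent.K4H50.VS
open Finset
open Pool.Agent.H376R2.MR (er kern_er_norm)
open Pool.Agent.Y851.HZ

/-- one dyadic block after the other -/
lemma dyad (e : ℕ → ℂ) (D : ℝ) (hD : 0 ≤ D) (i : ℕ) : ∀ N N' : ℕ, N ≤ N' → N' ≤ 2 ^ i * N →
    (∀ n n' : ℕ, N ≤ n → n ≤ 2 ^ i * N → n ≤ n' → n' ≤ 2 * n → ‖∑ j ∈ Ioc n n', e j‖ ≤ D) →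
    ‖∑ j ∈ Ioc N N', e j‖ ≤ i * D := by
  induction i with
  | zero =>
    intro N N' h1 h2 _
    have : N' = N := by simp at h2; omega
    subst this
    simp
  | succ i ih =>
    intro N N' h1 h2 h
    by_cases h3 : N' ≤ 2 ^ i * N
    · have h4 := ih N N' h1 h3 (fun n n' a1 a2 a3 a4 => h n n' a1 (a2.trans (by
        rw [pow_succ]; nlinarith [Nat.zero_le (2 ^ i * N)])) a3 a4)
      refine h4.trans ?_
      push_cast
      nlinarith
    · push Not at h3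
      have hN1 : N ≤ 2 ^ i * N := Nat.le_mul_of_pos_left N (by positivity)
      have h4 := ih N (2 ^ i * N) hN1 le_rfl (fun n n' a1 a2 a3 a4 => h n n' a1 (a2.trans (by
        rw [pow_succ]; nlinarith [Nat.zero_le (2 ^ i * N)])) a3 a4)
      have h5 := h (2 ^ i * N) N' hN1 (by rw [pow_succ]; nlinarith [Nat.zero_le (2 ^ i * N)]) h3.le
        (by rw [pow_succ] at h2; linarith)
      rw [← sum_Ioc_consecutive e hN1 h3.le]
      refine (norm_add_le _ _).trans ?_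
      push_cast
      linarith

/-- sums of `n^{iτ}` over `[a, k)`, `k ≤ 32 a` -/
lemma blocks (C : ℕ) (c : ℝ) (hc : 0 < c) (h : ∀ (N N' : ℕ) (t κ : ℝ), 2 ≤ N → N ≤ N' → N' ≤ 2 * N →
    1 / 2 ≤ κ → |t| = (N : ℝ) ^ κ →
    ‖∑ n ∈ Finset.Ioc N N', (n : ℂ) ^ (-(t : ℂ) * Complex.I)‖ ≤
    Real.exp (C * (1 + κ) ^ C) * (N : ℝ) ^ (1 - c / (1 + κ) ^ 2 : ℝ)) (N N' : ℕ) (τ κ₀ : ℝ) (hN : 2 ≤ N)
    (h1 : N ≤ N') (h2 : N' ≤ 64 * N) (hτ1 : Real.log (64 * N) / 2 ≤ Real.log |τ|) (hτ0 : 0 < |τ|)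
    (hτ2 : Real.log |τ| ≤ κ₀ * Real.log N) :
    ‖∑ j ∈ Ioc N N', er τ (Real.log j)‖ ≤
      6 * (64 * N * (Real.exp (C * (1 + κ₀) ^ C) * (N : ℝ) ^ (-(c / (1 + κ₀) ^ 2) : ℝ))) := by
  have hNr : (2 : ℝ) ≤ N := by exact_mod_cast hN
  have hN0 : (0 : ℝ) < N := by linarith
  have hlN : 0 < Real.log N := Real.log_pos (by linarith)
  have hκ₀ : 0 < κ₀ := by
    have h3 : 0 < Real.log (64 * N) := Real.log_pos (by linarith)
    have h4 : 0 < κ₀ * Real.log N := by linarith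
    exact (pos_iff_pos_of_mul_pos h4).2 hlN
  have key := dyad (fun j => er τ (Real.log j))
    (64 * N * (Real.exp (C * (1 + κ₀) ^ C) * (N : ℝ) ^ (-(c / (1 + κ₀) ^ 2) : ℝ))) (by positivity) 6 N N' h1
    (by norm_num; exact h2) ?_
  · exact_mod_cast key
  intro n n' a1 a2 a3 a4
  have hnN : (N : ℝ) ≤ n := by exact_mod_cast a1
  have hn64 : (n : ℝ) ≤ 64 * N := by
    have : n ≤ 64 * N := by norm_num at a2; exact a2
    exact_mod_cast this
  have hn0 : (0 : ℝ) < n := by linarith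
  have hn1 : (1 : ℝ) < n := by linarith
  have hln : 0 < Real.log n := Real.log_pos hn1
  obtain ⟨κ, hκ⟩ : ∃ κ, κ = Real.log |τ| / Real.log n := ⟨_, rfl⟩
  have hκ1 : 1 / 2 ≤ κ := by
    rw [hκ, le_div_iff₀ hln]
    have h3 : Real.log n ≤ Real.log (64 * N) := Real.log_le_log hn0 hn64
    linarith
  have hκ2 : κ ≤ κ₀ := by
    rw [hκ, div_le_iff₀ hln]
    refine hτ2.trans ?_
    have h3 : Real.log N ≤ Real.log n := Real.log_le_log hN0 hnN
    exact mul_le_mul_of_nonneg_left h3 hκ₀.le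
  have hτκ : |(-τ)| = (n : ℝ) ^ κ := by
    rw [abs_neg, Real.rpow_def_of_pos hn0, hκ, mul_div_cancel₀ _ hln.ne', Real.exp_log hτ0]
  have h5 := h n n' (-τ) κ (by omega) a3 a4 hκ1 hτκ
  have h6 : ∑ j ∈ Ioc n n', er τ (Real.log j) = ∑ j ∈ Ioc n n', (j : ℂ) ^ (-((-τ : ℝ) : ℂ) * Complex.I) := by
    apply sum_congr rfl
    intro j hj
    rw [mem_Ioc] at hj
    have hj0 : (j : ℂ) ≠ 0 := by
      have : j ≠ 0 := by omega
      exact_mod_cast this
    rw [Complex.cpow_def_of_ne_zero hj0]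
    unfold Pool.Agent.H376R2.MR.er
    congr 1
    rw [← Complex.natCast_log]
    push_cast
    ring
  rw [h6]
  refine h5.trans ?_
  have e1 : (n : ℝ) ^ (1 - c / (1 + κ) ^ 2 : ℝ) = n * (n : ℝ) ^ (-(c / (1 + κ) ^ 2) : ℝ) := by
    rw [sub_eq_add_neg, Real.rpow_add hn0, Real.rpow_one]
  have h7 : (n : ℝ) ^ (-(c / (1 + κ) ^ 2) : ℝ) ≤ (N : ℝ) ^ (-(c / (1 + κ₀) ^ 2) : ℝ) := by
    have h8 : (n : ℝ) ^ (-(c / (1 + κ) ^ 2) : ℝ) ≤ (N : ℝ) ^ (-(c / (1 + κ) ^ 2) : ℝ) :=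
      Real.rpow_le_rpow_of_nonpos hN0 hnN (by
        have : 0 ≤ c / (1 + κ) ^ 2 := by positivity
        linarith)
    refine h8.trans ?_
    apply Real.rpow_le_rpow_of_exponent_le (by linarith)
    have h9 : c / (1 + κ₀) ^ 2 ≤ c / (1 + κ) ^ 2 := by
      apply div_le_div_of_nonneg_left hc.le (by positivity)
      have : 0 ≤ 1 + κ := by linarith
      gcongr
    linarith
  rw [e1]
  have h8 : Real.exp (C * (1 + κ) ^ C) ≤ Real.exp (C * (1 + κ₀) ^ C) := by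
    apply Real.exp_le_exp.2
    have : 0 ≤ 1 + κ := by linarith
    gcongr
  calc Real.exp (C * (1 + κ) ^ C) * (n * (n : ℝ) ^ (-(c / (1 + κ) ^ 2) : ℝ)) ≤
      Real.exp (C * (1 + κ₀) ^ C) * (64 * N * (N : ℝ) ^ (-(c / (1 + κ₀) ^ 2) : ℝ)) := by gcongr
    _ = _ := by ring

/-- windows at very large frequencies -/
theorem win_vk : ∃ δ₁ : ℝ, 0 < δ₁ ∧ δ₁ ≤ 1 / 8 ∧ ∀ ε : ℝ, 0 < ε → ∃ v₀ : ℝ, ∀ g : ℝ → ℝ, Wd g → ∀ v τ : ℝ, v₀ ≤ v →
    Real.exp v ≤ |τ| → |τ| ≤ Real.exp (v ^ (1 + δ₁)) → ‖SS g v τ‖ ≤ ε := by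
  obtain ⟨C, c, hc, hc1, hzs⟩ := Pool.Agent.Y957.VK.zs_all
  refine ⟨1 / (4 * (C + 2)), by positivity, ?_, ?_⟩
  · rw [div_le_div_iff₀ (by positivity) (by norm_num)]
    have : (0 : ℝ) ≤ C := Nat.cast_nonneg C
    linarith
  intro ε hε
  have hC0 : (0 : ℝ) ≤ C := Nat.cast_nonneg C
  obtain ⟨d, hd⟩ : ∃ d : ℝ, d = 1 / (4 * (C + 2)) := ⟨_, rfl⟩
  have hd0 : 0 < d := by rw [hd]; positivity
  have hd2 : 2 * d ≤ 1 / 4 := by
    rw [hd, mul_one_div, div_le_div_iff₀ (by positivity) (by norm_num)]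
    linarith
  have hdC : d * C ≤ 1 / 4 := by
    rw [hd, one_div, inv_mul_le_iff₀ (by positivity)]
    linarith
  rw [← hd]
  -- the decay
  have hdec : ∃ v₁ : ℝ, ∀ v : ℝ, v₁ ≤ v → 2000 * Real.exp (C * 3 ^ C * v ^ (1 / 4 : ℝ) - c / 18 * v ^ (3 / 4 : ℝ)) ≤ ε := by
    have h1 : Filter.Tendsto (fun v : ℝ => v ^ (1 / 4 : ℝ)) Filter.atTop Filter.atTop := tendsto_rpow_atTop (by norm_num)
    have h2 : Filter.Tendsto (fun x : ℝ => c / 18 * x ^ 3 - C * 3 ^ C * x) Filter.atTop Filter.atTop := by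
      have h3 : ∀ x : ℝ, c / 18 * x ^ 3 - C * 3 ^ C * x = x * (c / 18 * x ^ 2 - C * 3 ^ C) := by intro x; ring
      simp_rw [h3]
      apply Filter.Tendsto.atTop_mul_atTop₀ Filter.tendsto_id
      apply Filter.tendsto_atTop_add_const_right
      exact (Filter.tendsto_pow_atTop two_ne_zero).const_mul_atTop (by positivity)
    have h4 := Real.tendsto_exp_neg_atTop_nhds_zero.comp (h2.comp h1)
    have h5 := h4.eventually (gt_mem_nhds (show (0 : ℝ) < ε / 2000 by positivity))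
    obtain ⟨v₁, hv₁⟩ := Filter.eventually_atTop.1 h5
    refine ⟨max v₁ 0, fun v hv => ?_⟩
    have h6 := hv₁ v ((le_max_left _ _).trans hv)
    have hv0 : 0 ≤ v := (le_max_right _ _).trans hv
    simp only [Function.comp] at h6
    have e : -(c / 18 * (v ^ (1 / 4 : ℝ)) ^ 3 - C * 3 ^ C * v ^ (1 / 4 : ℝ)) =
        C * 3 ^ C * v ^ (1 / 4 : ℝ) - c / 18 * v ^ (3 / 4 : ℝ) := by
      rw [← Real.rpow_natCast (v ^ (1 / 4 : ℝ)) 3, ← Real.rpow_mul hv0]
      norm_num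
    rw [e, lt_div_iff₀ (by norm_num)] at h6
    linarith
  obtain ⟨v₁, hv₁⟩ := hdec
  refine ⟨max v₁ 8, fun g hg v τ hv hτ1 hτ2 => ?_⟩
  have hv8 : 8 ≤ v := (le_max_right _ _).trans hv
  have hvv1 : v₁ ≤ v := (le_max_left _ _).trans hv
  have hv0 : 0 < v := by linarith
  set a : ℕ := ⌊Real.exp (v - 1)⌋₊ with ha
  set b : ℕ := ⌊Real.exp (v + 1)⌋₊ + 1 with hb
  have he1 := Real.exp_one_gt_d9
  have he1' := Real.exp_one_lt_d9
  have hev7 : (100 : ℝ) ≤ Real.exp (v - 1) := by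
    have h1 : Real.exp 7 ≤ Real.exp (v - 1) := Real.exp_le_exp.2 (by linarith)
    have h2 : Real.exp 7 = Real.exp 1 ^ 7 := by rw [← Real.exp_nat_mul]; norm_num
    have h3 : (2 : ℝ) ^ 7 ≤ Real.exp 1 ^ 7 := by gcongr; linarith
    rw [h2] at h1
    norm_num at h3
    linarith
  have ha1 : (a : ℝ) ≤ Real.exp (v - 1) := Nat.floor_le (Real.exp_pos _).le
  have ha2 : Real.exp (v - 1) < a + 1 := Nat.lt_floor_add_one _
  have ha4 : 99 ≤ a := by
    have : (99 : ℝ) ≤ a := by linarith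
    exact_mod_cast this
  have ha4r : (99 : ℝ) ≤ a := by exact_mod_cast ha4
  have ha0 : (0 : ℝ) < a := by linarith
  have hb1 : Real.exp (v + 1) < b := by rw [hb]; push_cast; exact Nat.lt_floor_add_one _
  have hb2 : (b : ℝ) ≤ Real.exp (v + 1) + 1 := by
    rw [hb]; push_cast
    linarith [Nat.floor_le (Real.exp_pos (v + 1)).le]
  have hev2 : Real.exp (v + 1) = Real.exp 2 * Real.exp (v - 1) := by rw [← Real.exp_add]; congr 1; ring
  have hb3 : (b : ℝ) ≤ 27 * a := by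
    have := exp_two_lt
    have h5 : Real.exp 2 * Real.exp (v - 1) ≤ 7.4 * Real.exp (v - 1) := by gcongr
    rw [hev2] at hb2
    linarith
  have hab : a ≤ b := by
    have : (a : ℝ) ≤ b := by
      have := Real.exp_le_exp.2 (show v - 1 ≤ v + 1 by linarith)
      linarith
    exact_mod_cast this
  -- the base
  obtain ⟨N, hN⟩ : ∃ N : ℕ, N = a - 1 := ⟨_, rfl⟩
  have hNa : N + 1 = a := by omega
  have hN98 : 98 ≤ N := by omega
  have hNr : (98 : ℝ) ≤ N := by exact_mod_cast hN98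
  have hNar : (N : ℝ) + 1 = a := by exact_mod_cast hNa
  have hlogN : v / 2 ≤ Real.log N := by
    rw [Real.le_log_iff_exp_le (by linarith)]
    have h4 : Real.exp (v - 1) = Real.exp (v / 2) * Real.exp (v / 2 - 1) := by
      rw [← Real.exp_add]; congr 1; ring
    have h5 : Real.exp 3 ≤ Real.exp (v / 2 - 1) := Real.exp_le_exp.2 (by linarith)
    have h6 : (8 : ℝ) ≤ Real.exp 3 := by
      have h2 : Real.exp 3 = Real.exp 1 ^ 3 := by rw [← Real.exp_nat_mul]; norm_num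
      have h3 : (2 : ℝ) ^ 3 ≤ Real.exp 1 ^ 3 := by gcongr; linarith
      rw [h2]; norm_num at h3; linarith
    have h7 := Real.exp_pos (v / 2)
    have h8 : 8 * Real.exp (v / 2) ≤ Real.exp (v - 1) := by rw [h4]; nlinarith
    have h9 : (1 : ℝ) ≤ Real.exp (v / 2) := Real.one_le_exp (by linarith)
    linarith
  have hlN0 : 0 < Real.log N := by linarith
  have hτ0 : 0 < |τ| := lt_of_lt_of_le (Real.exp_pos v) hτ1
  have hlτ1 : v ≤ Real.log |τ| := by rwa [Real.le_log_iff_exp_le hτ0]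
  have hlτ2 : Real.log |τ| ≤ v ^ (1 + d) := by rwa [Real.log_le_iff_le_exp hτ0]
  obtain ⟨κ₀, hκ₀⟩ : ∃ κ₀ : ℝ, κ₀ = 2 * v ^ d := ⟨_, rfl⟩
  have hvd : 1 ≤ v ^ d := Real.one_le_rpow (by linarith) hd0.le
  have hτκ : Real.log |τ| ≤ κ₀ * Real.log N := by
    refine hlτ2.trans ?_
    rw [hκ₀, Real.rpow_add hv0, Real.rpow_one]
    nlinarith
  have h64 : Real.log (64 * N) / 2 ≤ Real.log |τ| := by
    have h1 : Real.log (64 * (N : ℝ)) ≤ v + 5 := by
      rw [Real.log_le_iff_le_exp (by positivity)]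
      have h2 : Real.exp (v + 5) = Real.exp 6 * Real.exp (v - 1) := by rw [← Real.exp_add]; congr 1; ring
      have h3 : (64 : ℝ) ≤ Real.exp 6 := by
        have h2 : Real.exp 6 = Real.exp 1 ^ 6 := by rw [← Real.exp_nat_mul]; norm_num
        have h3 : (2 : ℝ) ^ 6 ≤ Real.exp 1 ^ 6 := by gcongr; linarith
        rw [h2]; norm_num at h3; linarith
      rw [h2]
      nlinarith [Real.exp_pos (v - 1)]
    linarith
  have hbl : ∀ k, a ≤ k → k ≤ b → ‖∑ j ∈ Ico a k, er τ (Real.log j)‖ ≤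
      6 * (64 * N * (Real.exp (C * (1 + κ₀) ^ C) * (N : ℝ) ^ (-(c / (1 + κ₀) ^ 2) : ℝ))) := by
    intro k hak hkb
    have e1 : Ico a k = Ioc N (k - 1) := by
      ext j; rw [mem_Ico, mem_Ioc]; omega
    rw [e1]
    apply blocks C c hc hzs N (k - 1) τ κ₀ (by omega) (by omega) _ h64 hτ0 hτκ
    have h1 : (b : ℝ) ≤ 27 * (N + 1) := by rw [hNar]; exact hb3
    have h2 : b ≤ 27 * (N + 1) := by exact_mod_cast h1
    omega
  set B := 6 * (64 * (N : ℝ) * (Real.exp (C * (1 + κ₀) ^ C) * (N : ℝ) ^ (-(c / (1 + κ₀) ^ 2) : ℝ))) with hB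
  have hB0 : 0 ≤ B := by positivity
  have hgb : g (Real.log b - v) = 0 := by
    apply hg.supp
    have : v + 1 ≤ Real.log b := by
      rw [Real.le_log_iff_exp_le (by linarith [Real.exp_pos (v + 1)])]
      exact hb1.le
    rw [abs_of_nonneg (by linarith)]
    linarith
  have key := by_parts_bd (fun m => ((g (Real.log m - v) / m : ℝ) : ℂ)) (fun j => er τ (Real.log j)) a b hab B hB0
    (by simp [hgb]) hbl
  have hvar : ∑ i ∈ Ico a b, ‖((g (Real.log ((i + 1 : ℕ) : ℝ) - v) / ((i + 1 : ℕ) : ℝ) : ℝ) : ℂ) - ((g (Real.log i - v) / (i : ℝ) : ℝ) : ℂ)‖ ≤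
      5 / a := by
    have h1 : ∀ i ∈ Ico a b, ‖((g (Real.log ((i + 1 : ℕ) : ℝ) - v) / ((i + 1 : ℕ) : ℝ) : ℝ) : ℂ) - ((g (Real.log i - v) / (i : ℝ) : ℝ) : ℂ)‖ ≤
        1 / a * (Real.log ((i + 1 : ℕ) : ℝ) - Real.log (i : ℝ)) + (-(1 / ((i + 1 : ℕ) : ℝ)) - -(1 / (i : ℝ))) := by
      intro i hi
      rw [mem_Ico] at hi
      have hia : (a : ℝ) ≤ i := by exact_mod_cast hi.1
      have hi0 : (0 : ℝ) < i := by linarith
      obtain ⟨d0, _⟩ := log_diff (show 1 ≤ i by omega)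
      rw [← Complex.ofReal_sub, Complex.norm_real, Real.norm_eq_abs]
      have e : g (Real.log ((i + 1 : ℕ) : ℝ) - v) / ((i + 1 : ℕ) : ℝ) - g (Real.log i - v) / (i : ℝ) =
          (g (Real.log ((i + 1 : ℕ) : ℝ) - v) - g (Real.log i - v)) / ((i + 1 : ℕ) : ℝ) -
            g (Real.log i - v) * (1 / (i : ℝ) - 1 / ((i + 1 : ℕ) : ℝ)) := by
        push_cast
        field_simp
        ring
      rw [e]
      refine (abs_sub _ _).trans ?_
      have h2 : |(g (Real.log ((i + 1 : ℕ) : ℝ) - v) - g (Real.log i - v)) / ((i + 1 : ℕ) : ℝ)| ≤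
          1 / a * (Real.log ((i + 1 : ℕ) : ℝ) - Real.log (i : ℝ)) := by
        rw [abs_div, abs_of_pos (show (0 : ℝ) < ((i + 1 : ℕ) : ℝ) by positivity), div_le_iff₀ (by positivity)]
        have h3 := hg.lip (Real.log ((i + 1 : ℕ) : ℝ) - v) (Real.log i - v)
        rw [show Real.log ((i + 1 : ℕ) : ℝ) - v - (Real.log i - v) =
          Real.log ((i + 1 : ℕ) : ℝ) - Real.log i by ring, abs_of_nonneg d0] at h3
        refine h3.trans ?_
        have h4 : (1 : ℝ) ≤ 1 / a * ((i + 1 : ℕ) : ℝ) := by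
          rw [one_div, inv_mul_eq_div, le_div_iff₀ ha0]
          push_cast; linarith
        calc Real.log ((i + 1 : ℕ) : ℝ) - Real.log (i : ℝ) = 1 * (Real.log ((i + 1 : ℕ) : ℝ) - Real.log (i : ℝ)) := by ring
          _ ≤ (1 / a * ((i + 1 : ℕ) : ℝ)) * (Real.log ((i + 1 : ℕ) : ℝ) - Real.log (i : ℝ)) := by gcongr
          _ = _ := by ring
      have h3 : 0 ≤ 1 / (i : ℝ) - 1 / ((i + 1 : ℕ) : ℝ) := by
        rw [sub_nonneg]
        apply one_div_le_one_div_of_le hi0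
        push_cast; linarith
      have h4 : |g (Real.log i - v) * (1 / (i : ℝ) - 1 / ((i + 1 : ℕ) : ℝ))| ≤ -(1 / ((i + 1 : ℕ) : ℝ)) - -(1 / (i : ℝ)) := by
        rw [abs_mul, abs_of_nonneg h3, abs_of_nonneg (hg.nonneg _)]
        have := hg.le_one (Real.log i - v)
        nlinarith
      linarith
    refine (sum_le_sum h1).trans ?_
    rw [sum_add_distrib, ← mul_sum, Finset.sum_Ico_sub (fun i : ℕ => Real.log (i : ℝ)) hab,
      Finset.sum_Ico_sub (fun i : ℕ => -(1 / (i : ℝ))) hab]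
    have hb0 : (0 : ℝ) < b := by linarith [Real.exp_pos (v + 1)]
    have h2 : Real.log b - Real.log a ≤ 4 := by
      rw [← Real.log_div hb0.ne' ha0.ne', Real.log_le_iff_le_exp (by positivity), div_le_iff₀ ha0]
      have h3 : (27 : ℝ) ≤ Real.exp 4 := by
        have h4 : Real.exp 4 = Real.exp 1 ^ 4 := by rw [← Real.exp_nat_mul]; norm_num
        have h6 : (2.7 : ℝ) ^ 4 ≤ Real.exp 1 ^ 4 := by gcongr; linarith
        rw [h4]
        have h7 : (27 : ℝ) ≤ 2.7 ^ 4 := by norm_num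
        linarith
      nlinarith
    have h3 : 0 < 1 / (b : ℝ) := by positivity
    have h4 : 1 / (a : ℝ) * (Real.log b - Real.log a) ≤ 1 / a * 4 := by gcongr
    have e5 : 5 / (a : ℝ) = 1 / a * 4 + 1 / a := by ring
    rw [e5]
    linarith
  have hsum : SS g v τ = ∑ m ∈ Ico a b, ((g (Real.log m - v) / m : ℝ) : ℂ) * er τ (Real.log m) := by
    unfold SS
    symm
    apply sum_subset
    · intro m hm
      rw [mem_Ico] at hm
      rw [mem_Icc]
      omega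
    · intro m hm hm2
      rw [mem_Icc] at hm
      rw [mem_Ico] at hm2
      have hma : m < a := by omega
      have : g (Real.log m - v) = 0 := by
        apply hg.supp
        have hm0 : (0 : ℝ) < m := by exact_mod_cast hm.1
        have hlm : Real.log m ≤ v - 1 := by
          rw [Real.log_le_iff_le_exp hm0]
          have : (m : ℝ) ≤ a := by exact_mod_cast hma.le
          linarith
        rw [abs_of_nonpos (by linarith)]
        linarith
      simp [this]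
  rw [hsum]
  refine key.trans ((mul_le_mul_of_nonneg_left hvar hB0).trans ?_)
  -- the final estimate
  have hκ₀1 : 1 + κ₀ ≤ 3 * v ^ d := by rw [hκ₀]; linarith
  have hκ₀0 : 0 < 1 + κ₀ := by rw [hκ₀]; positivity
  have k1 : (C : ℝ) * (1 + κ₀) ^ C ≤ C * 3 ^ C * v ^ (1 / 4 : ℝ) := by
    have h1 : (1 + κ₀) ^ C ≤ (3 * v ^ d) ^ C := by gcongr
    have h2 : (3 * v ^ d) ^ C = 3 ^ C * v ^ (d * C) := by
      rw [mul_pow, ← Real.rpow_natCast (v ^ d) C, ← Real.rpow_mul hv0.le]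
    have h3 : v ^ (d * C) ≤ v ^ (1 / 4 : ℝ) := Real.rpow_le_rpow_of_exponent_le (by linarith) hdC
    calc (C : ℝ) * (1 + κ₀) ^ C ≤ C * (3 ^ C * v ^ (d * C)) := by rw [← h2]; gcongr
      _ ≤ C * (3 ^ C * v ^ (1 / 4 : ℝ)) := by gcongr
      _ = _ := by ring
  have k2 : (N : ℝ) ^ (-(c / (1 + κ₀) ^ 2) : ℝ) ≤ Real.exp (-(c / 18 * v ^ (3 / 4 : ℝ))) := by
    have h1 : c / (9 * v ^ (1 / 4 : ℝ)) ≤ c / (1 + κ₀) ^ 2 := by
      apply div_le_div_of_nonneg_left hc.le (by positivity)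
      have h2 : (1 + κ₀) ^ 2 ≤ (3 * v ^ d) ^ 2 := by gcongr
      have h3 : (3 * v ^ d) ^ 2 = 9 * v ^ (2 * d) := by
        rw [mul_pow, ← Real.rpow_natCast (v ^ d) 2, ← Real.rpow_mul hv0.le]
        norm_num
        ring_nf
      have h4 : v ^ (2 * d) ≤ v ^ (1 / 4 : ℝ) := Real.rpow_le_rpow_of_exponent_le (by linarith) hd2
      rw [h3] at h2
      linarith
    rw [Real.rpow_def_of_pos (by linarith : (0 : ℝ) < N)]
    apply Real.exp_le_exp.2
    have h5 : v ^ (3 / 4 : ℝ) = v / v ^ (1 / 4 : ℝ) := by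
      rw [eq_div_iff (by positivity), ← Real.rpow_add hv0]
      norm_num
    have h6 : c / 18 * v ^ (3 / 4 : ℝ) ≤ Real.log N * (c / (1 + κ₀) ^ 2) := by
      calc c / 18 * v ^ (3 / 4 : ℝ) = (v / 2) * (c / (9 * v ^ (1 / 4 : ℝ))) := by
            rw [h5]; field_simp; norm_num
        _ ≤ Real.log N * (c / (1 + κ₀) ^ 2) := by gcongr
    linarith
  have k3 : Real.exp (C * (1 + κ₀) ^ C) * (N : ℝ) ^ (-(c / (1 + κ₀) ^ 2) : ℝ) ≤
      Real.exp (C * 3 ^ C * v ^ (1 / 4 : ℝ) - c / 18 * v ^ (3 / 4 : ℝ)) := by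
    rw [sub_eq_add_neg, Real.exp_add]
    gcongr
  have k4 := hv₁ v hvv1
  have hNa1 : (N : ℝ) / a ≤ 1 := by rw [div_le_one ha0]; linarith
  calc B * (5 / a) = 1920 * ((N : ℝ) / a) * (Real.exp (C * (1 + κ₀) ^ C) * (N : ℝ) ^ (-(c / (1 + κ₀) ^ 2) : ℝ)) := by
        rw [hB]; ring
    _ ≤ 1920 * 1 * Real.exp (C * 3 ^ C * v ^ (1 / 4 : ℝ) - c / 18 * v ^ (3 / 4 : ℝ)) := by gcongr
    _ ≤ 2000 * Real.exp (C * 3 ^ C * v ^ (1 / 4 : ℝ) - c / 18 * v ^ (3 / 4 : ℝ)) := by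
        have := Real.exp_pos (C * 3 ^ C * v ^ (1 / 4 : ℝ) - c / 18 * v ^ (3 / 4 : ℝ))
        linarith
    _ ≤ ε := k4

end Pool.Agent.K4H50.VS
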