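import Pool.Agent.K4H50.VS.A1
import Pool.Agent.Y851.PS.G16

/-! Majorants for dense sets of small dilations. -/

set_option autoImplicit false

namespace Pool.Agent.K4H50.VS
open Finset Filter
open Pool.Agent.H376R2.MR (Fj FK ch Fj_nonneg Fj_le kern_ch_er ls_norm_ch er)
open Pool.Agent.H376R2.MR renaming w → tw
open Pool.Agent.Y851.HZ
open Pool.Agent.Y851.PS

/-- majorants for dense sets of integers, for frequencies up to `exp (V ^ (1 + δ₁))` -/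
theorem maj_vk : ∃ δ₁ : ℝ, 0 < δ₁ ∧ δ₁ ≤ 1 / 8 ∧ ∀ (κ δ : ℝ), 0 < κ → 0 < δ → ∃ (μ : ℝ) (T0 : ℕ) (V₀ : ℝ), 1 ≤ μ ∧ ∀ V : ℝ, V₀ ≤ V →
    ∀ A : Finset ℕ, (∀ a ∈ A, 1 ≤ a ∧ |Real.log a - V| ≤ 1 / 2) → δ * Real.exp V ≤ A.card → ∀ K : ℕ,
    2 * (K : ℝ) ≤ Real.exp (V ^ (1 + δ₁)) → Maj A μ κ T0 K := by
  obtain ⟨δ₁, hδ₁0, hδ₁1, hvk⟩ := win_vk
  refine ⟨δ₁, hδ₁0, hδ₁1, fun κ δ hκ hδ => ?_⟩
  obtain ⟨v₀, hvk⟩ := hvk (κ * δ / 4) (by positivity)
  obtain ⟨η, C, hη, hη1, hC, hT⟩ := type_one 1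
  -- decay
  have hdec : ∃ V1 : ℝ, ∀ V : ℝ, V1 ≤ V → 4 * (C * Real.exp (-(η * V))) ≤ κ * δ / 2 := by
    have h1 : Filter.Tendsto (fun V : ℝ => 4 * (C * Real.exp (-(η * V)))) Filter.atTop (nhds (4 * (C * 0))) := by
      apply Filter.Tendsto.const_mul
      apply Filter.Tendsto.const_mul
      apply Real.tendsto_exp_atBot.comp
      apply Filter.tendsto_neg_atTop_atBot.comp
      exact Filter.tendsto_id.const_mul_atTop hη
    rw [mul_zero, mul_zero] at h1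
    obtain ⟨V1, hV1⟩ := Filter.eventually_atTop.1 (h1.eventually (gt_mem_nhds (show (0 : ℝ) < κ * δ / 2 by positivity)))
    exact ⟨V1, fun V hV => (hV1 V hV).le⟩
  obtain ⟨V1, hV1⟩ := hdec
  refine ⟨max 1 (60 / δ), ⌈64 / (κ * δ)⌉₊ + 4, max (max V1 v₀) 4, le_max_left _ _, ?_⟩
  intro V hV A hA hcard K hK
  have hVa : V1 ≤ V := ((le_max_left _ _).trans (le_max_left _ _)).trans hV
  have hVb : v₀ ≤ V := ((le_max_right _ _).trans (le_max_left _ _)).trans hV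
  have hV4 : 4 ≤ V := (le_max_right _ _).trans hV
  have heV := Real.exp_pos V
  refine ⟨⟨Icc 1 ⌊Real.exp (V + 1)⌋₊, nuW V, fun a ha => mem_S (hA a ha).1 (hA a ha).2, fun n _ => nuW_nonneg V n,
    fun a ha => nuW_one (hA a ha).1 (hA a ha).2, ?_, ?_⟩⟩
  · -- the mass
    have h1 : ∀ n ∈ Icc 1 ⌊Real.exp (V + 1)⌋₊, nuW V n ≤ 2 * Real.exp (V + 1 / 2) * Real.exp (1 - V) := by
      intro n hn
      rw [mem_Icc] at hn
      have hn0 : (0 : ℝ) < n := by exact_mod_cast hn.1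
      unfold nuW
      apply mul_le_mul_of_nonneg_left _ (by positivity)
      by_cases h : |Real.log n - V| < 1
      · have h2 : Real.exp (V - 1) ≤ n := by
          rw [← Real.le_log_iff_exp_le hn0]
          linarith [(abs_lt.1 h).1]
        rw [div_le_iff₀ hn0]
        have h3 : Real.exp (1 - V) * Real.exp (V - 1) = 1 := by rw [← Real.exp_add]; simp
        have h4 := mul_le_mul_of_nonneg_left h2 (Real.exp_pos (1 - V)).le
        have h5 := Pool.Agent.Y851.HZ.tw_le (Real.log n - V)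
        linarith
      · rw [tw_supp _ (not_lt.1 h), zero_div]
        positivity
    calc ∑ n ∈ Icc 1 ⌊Real.exp (V + 1)⌋₊, nuW V n ≤ ∑ n ∈ Icc 1 ⌊Real.exp (V + 1)⌋₊, 2 * Real.exp (V + 1 / 2) * Real.exp (1 - V) :=
          sum_le_sum h1
      _ = (⌊Real.exp (V + 1)⌋₊ : ℝ) * (2 * Real.exp (V + 1 / 2) * Real.exp (1 - V)) := by
          rw [sum_const, nsmul_eq_mul, Nat.card_Icc, Nat.add_sub_cancel]
      _ ≤ Real.exp (V + 1) * (4 * Real.exp V * Real.exp (1 - V)) := by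
          have := Nat.floor_le (Real.exp_pos (V + 1)).le
          have h2 := exp_half_le V
          gcongr
      _ = 4 * Real.exp 2 * Real.exp V := by
          have : Real.exp (V + 1) * Real.exp (1 - V) = Real.exp 2 := by rw [← Real.exp_add]; congr 1; ring
          rw [← this]; ring
      _ ≤ 60 * Real.exp V := by
          have h2 : Real.exp 2 < 7.4 := exp_two_lt
          nlinarith
      _ = 60 / δ * (δ * Real.exp V) := by field_simp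
      _ ≤ max 1 (60 / δ) * A.card := by
          apply mul_le_mul (le_max_right _ _) hcard (by positivity) (by positivity)
  · intro k hk hk2
    have e : TF (Icc 1 ⌊Real.exp (V + 1)⌋₊) (nuW V) (fun n : ℕ => Real.log n) k =
        ((2 * Real.exp (V + 1 / 2) : ℝ) : ℂ) * SS tw V (-(k : ℝ)) := by
      unfold TF SS nuW
      rw [mul_sum]
      apply sum_congr rfl
      intro n _
      rw [kern_ch_er]
      push_cast
      ring
    rw [e, norm_mul, Complex.norm_real, Real.norm_eq_abs, abs_of_pos (by positivity)]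
    have hk3 : ((⌈64 / (κ * δ)⌉₊ + 4 : ℕ) : ℝ) < |(k : ℝ)| := by
      have h2 : (((⌈64 / (κ * δ)⌉₊ + 4 : ℕ) : ℤ) : ℝ) < ((|k| : ℤ) : ℝ) := by exact_mod_cast hk
      rw [Int.cast_abs] at h2
      exact_mod_cast h2
    push_cast at hk3
    have hk4 : 64 / (κ * δ) ≤ |(k : ℝ)| := by
      have := Nat.le_ceil (64 / (κ * δ))
      linarith
    have hk5 : 4 ≤ |(-(k : ℝ))| := by
      rw [abs_neg]
      have : (0 : ℝ) ≤ ⌈64 / (κ * δ)⌉₊ := Nat.cast_nonneg _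
      linarith
    have hk0 : 0 < |(k : ℝ)| := by
      have : 0 < 64 / (κ * δ) := by positivity
      linarith
    by_cases hbig : Real.exp V ≤ |(k : ℝ)|
    · have h1 := hvk tw tw_wd V (-(k : ℝ)) hVb (by rw [abs_neg]; exact hbig) (by rw [abs_neg]; exact hk2.trans hK)
      calc 2 * Real.exp (V + 1 / 2) * ‖SS tw V (-(k : ℝ))‖ ≤ (4 * Real.exp V) * (κ * δ / 4) := by
            have := exp_half_le V
            apply mul_le_mul this h1 (norm_nonneg _) (by positivity)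
        _ = κ * (δ * Real.exp V) := by ring
        _ ≤ κ * A.card := by gcongr
    push Not at hbig
    have h1 := hT tw tw_wd V (-(k : ℝ)) hV4 (by rw [abs_neg]; push_cast; rw [one_mul]; exact hbig.le)
    have h2 := II_bound tw_wd V (-(k : ℝ)) hk5
    rw [abs_neg] at h2
    have h3 : ‖SS tw V (-(k : ℝ))‖ ≤ C * Real.exp (-(η * V)) + 8 / |(k : ℝ)| := by
      have := norm_add_le (SS tw V (-(k : ℝ)) - II tw V (-(k : ℝ))) (II tw V (-(k : ℝ)))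
      rw [sub_add_cancel] at this
      linarith
    have h4 : 8 / |(k : ℝ)| ≤ κ * δ / 8 := by
      rw [div_le_iff₀ hk0]
      rw [div_le_iff₀ (by positivity)] at hk4
      linarith
    have h5 := hV1 V hVa
    calc 2 * Real.exp (V + 1 / 2) * ‖SS tw V (-(k : ℝ))‖ ≤ (4 * Real.exp V) * (C * Real.exp (-(η * V)) + κ * δ / 8) := by
          have := exp_half_le V
          apply mul_le_mul this (by linarith) (norm_nonneg _) (by positivity)
      _ = (4 * (C * Real.exp (-(η * V))) + κ * δ / 2) * Real.exp V := by ring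
      _ ≤ (κ * δ / 2 + κ * δ / 2) * Real.exp V := by gcongr
      _ = κ * (δ * Real.exp V) := by ring
      _ ≤ κ * A.card := by gcongr


/-- dense sets of integers up to `X ^ θ` -/
def AdmI (δ θ X : ℝ) (A : Finset ℕ) : Prop :=
  (∀ a ∈ A, 1 ≤ a ∧ (a : ℝ) ≤ X ^ θ) ∧ δ * X ^ θ ≤ A.card

lemma small_admI (δ δ' : ℝ) (hδ : 0 < δ) (hδ' : 0 < δ') : ∃ κ : ℝ, 0 < κ ∧ κ ≤ 1 ∧ ∀ X θ : ℝ, 0 < X →
    ∀ A : Finset ℕ, AdmI δ θ X A → ((A.filter (fun a : ℕ => (a : ℝ) < κ * X ^ θ)).card : ℝ) ≤ δ' * A.card := by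
  classical
  refine ⟨min 1 (δ' * δ), lt_min one_pos (by positivity), min_le_left _ _, fun X θ hX A hA => ?_⟩
  obtain ⟨κ, hκ⟩ : ∃ κ, κ = min 1 (δ' * δ) := ⟨_, rfl⟩
  have hκ0 : 0 < κ := by rw [hκ]; exact lt_min one_pos (by positivity)
  have hκ2 : κ ≤ δ' * δ := by rw [hκ]; exact min_le_right _ _
  rw [← hκ]
  have hXθ : 0 < X ^ θ := by positivity
  have hsub : A.filter (fun a : ℕ => (a : ℝ) < κ * X ^ θ) ⊆ Icc 1 ⌊κ * X ^ θ⌋₊ := by
    intro a ha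
    rw [mem_filter] at ha
    rw [mem_Icc]
    exact ⟨(hA.1 a ha.1).1, Nat.le_floor ha.2.le⟩
  have h3 := card_le_card hsub
  rw [Nat.card_Icc, Nat.add_sub_cancel] at h3
  have h4 : ((A.filter (fun a : ℕ => (a : ℝ) < κ * X ^ θ)).card : ℝ) ≤ κ * X ^ θ := by
    have h5 : ((A.filter (fun a : ℕ => (a : ℝ) < κ * X ^ θ)).card : ℝ) ≤ (⌊κ * X ^ θ⌋₊ : ℝ) := by exact_mod_cast h3
    exact h5.trans (Nat.floor_le (by positivity))
  calc ((A.filter (fun a : ℕ => (a : ℝ) < κ * X ^ θ)).card : ℝ) ≤ κ * X ^ θ := h4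
    _ ≤ (δ' * δ) * X ^ θ := by gcongr
    _ = δ' * (δ * X ^ θ) := by ring
    _ ≤ _ := by
      have := hA.2
      gcongr

/-- the size of the exponent `θ` -/
lemma theta_size (δ₁ : ℝ) (h0 : 0 < δ₁) (h1 : δ₁ ≤ 1 / 8) (R : ℝ) : ∀ᶠ X : ℝ in atTop, ∀ θ : ℝ, Real.log X ^ (-(δ₁ / 4)) ≤ θ →
    R ≤ θ / 2 * Real.log X ∧ Real.log X ≤ (θ / 2 * Real.log X) ^ (1 + δ₁) := by
  have hl := Real.tendsto_log_atTop
  have t1 : Tendsto (fun X : ℝ => Real.log X ^ (1 - δ₁ / 4)) atTop atTop :=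
    (tendsto_rpow_atTop (by linarith)).comp hl
  have t2 : Tendsto (fun X : ℝ => Real.log X ^ (δ₁ / 2)) atTop atTop :=
    (tendsto_rpow_atTop (by linarith)).comp hl
  filter_upwards [t1.eventually_ge_atTop (2 * max R 1), t2.eventually_ge_atTop 4, hl.eventually_ge_atTop 1] with X hX1 hX2 hX3 θ hθ
  obtain ⟨ℓ, hℓ⟩ : ∃ ℓ, ℓ = Real.log X := ⟨_, rfl⟩
  rw [← hℓ] at hX1 hX2 hX3 hθ ⊢
  have hℓ0 : 0 < ℓ := by linarith
  have e1 : ℓ ^ (-(δ₁ / 4)) * ℓ = ℓ ^ (1 - δ₁ / 4) := by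
    rw [← Real.rpow_add_one hℓ0.ne']
    congr 1; ring
  have h2 : ℓ ^ (1 - δ₁ / 4) / 2 ≤ θ / 2 * ℓ := by
    rw [← e1]
    have := mul_le_mul_of_nonneg_right hθ hℓ0.le
    linarith
  refine ⟨?_, ?_⟩
  · have := le_max_left R 1
    linarith
  · have h3 : (ℓ ^ (1 - δ₁ / 4) / 2) ^ (1 + δ₁) ≤ (θ / 2 * ℓ) ^ (1 + δ₁) :=
      Real.rpow_le_rpow (by positivity) h2 (by linarith)
    refine le_trans ?_ h3
    rw [Real.div_rpow (by positivity) (by norm_num), ← Real.rpow_mul hℓ0.le]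
    have h4 : (2 : ℝ) ^ (1 + δ₁) ≤ 4 := by
      have : (2 : ℝ) ^ (1 + δ₁) ≤ 2 ^ (2 : ℝ) := Real.rpow_le_rpow_of_exponent_le (by norm_num) (by linarith)
      refine this.trans ?_
      norm_num
    have h5 : ℓ * ℓ ^ (δ₁ / 2) ≤ ℓ ^ ((1 - δ₁ / 4) * (1 + δ₁)) := by
      rw [← Real.rpow_one_add' hℓ0.le (by linarith)]
      apply Real.rpow_le_rpow_of_exponent_le hX3
      nlinarith
    rw [le_div_iff₀ (by positivity)]
    calc ℓ * (2 : ℝ) ^ (1 + δ₁) ≤ ℓ * 4 := by gcongr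
      _ ≤ ℓ * ℓ ^ (δ₁ / 2) := by gcongr
      _ ≤ _ := h5

/-- majorants for large pieces of dense sets -/
theorem maj_admU : ∃ δ₀ : ℝ, 0 < δ₀ ∧ ∀ R : ℝ, (∀ᶠ X : ℝ in atTop, ∀ θ : ℝ, Real.log X ^ (-δ₀) ≤ θ → R ≤ θ / 2 * Real.log X) ∧
    ∀ δ ρ κ : ℝ, 0 < δ → 0 < ρ → 0 < κ → ∃ (μ : ℝ) (T0 : ℕ), 1 ≤ μ ∧
    ∀ᶠ X : ℝ in atTop, ∀ θ : ℝ, Real.log X ^ (-δ₀) ≤ θ → ∀ A : Finset ℕ, AdmI δ θ X A → ∀ A1 : Finset ℕ, A1 ⊆ A → ρ * A.card ≤ A1.card →
    ∀ V : ℝ, θ / 2 * Real.log X ≤ V → V ≤ θ * Real.log X → (∀ a ∈ A1, |Real.log a - V| ≤ 1 / 2) → ∀ K : ℕ, 2 * (K : ℝ) ≤ X →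
    Maj A1 μ κ T0 K := by
  obtain ⟨δ₁, hδ₁0, hδ₁1, hmaj⟩ := maj_vk
  refine ⟨δ₁ / 4, by positivity, fun R => ⟨?_, fun δ ρ κ hδ hρ hκ => ?_⟩⟩
  · filter_upwards [theta_size δ₁ hδ₁0 hδ₁1 R] with X hX θ hθ
    exact (hX θ hθ).1
  · obtain ⟨μ, T0, V₀, hμ, h1⟩ := hmaj κ (ρ * δ) hκ (by positivity)
    refine ⟨μ, T0, hμ, ?_⟩
    filter_upwards [theta_size δ₁ hδ₁0 hδ₁1 (max V₀ 1), eventually_ge_atTop 3] with X hX hX3 θ hθ A hA A1 hA1 hcard V hV1 hV2 hV K hK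
    have hX0 : 0 < X := by linarith
    obtain ⟨g1, g2⟩ := hX θ hθ
    have hlog : 0 < Real.log X := Real.log_pos (by linarith)
    have hVV : V₀ ≤ V := (le_max_left _ _).trans (g1.trans hV1)
    have hV1' : 1 ≤ V := (le_max_right _ _).trans (g1.trans hV1)
    apply h1 V hVV A1 (fun a ha => ⟨(hA.1 a (hA1 ha)).1, hV a ha⟩) _ K
    · refine hK.trans ?_
      rw [← Real.log_le_iff_le_exp hX0]
      refine g2.trans ?_
      have : 0 ≤ θ / 2 * Real.log X := by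
        have := le_max_right V₀ 1
        linarith
      exact Real.rpow_le_rpow this hV1 (by linarith)
    · have heV : Real.exp V ≤ X ^ θ := by
        rw [Real.rpow_def_of_pos hX0, Real.exp_le_exp]; linarith
      calc ρ * δ * Real.exp V ≤ ρ * δ * X ^ θ := by gcongr
        _ = ρ * (δ * X ^ θ) := by ring
        _ ≤ ρ * A.card := by
          have := hA.2
          gcongr
        _ ≤ _ := hcard

end Pool.Agent.K4H50.VS
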