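import Pool.Agent.K4H50.VS.A2
import Pool.Agent.Y851.PT.P7

/-! The cut norm of the window counts for very small dilations. -/

set_option autoImplicit false

namespace Pool.Agent.K4H50.VS
open Finset Filter
open Pool.Agent.Y851.PS
open Pool.Agent.Y851.PT

/-- **The cut norm.** -/
theorem cutU : ∃ δ₀ : ℝ, 0 < δ₀ ∧ ∀ (lam ϱ δ B δ' : ℝ), 0 < lam → 0 < ϱ → 0 < δ → 1 ≤ B → 0 < δ' →
    ∀ᶠ X : ℝ in atTop, ∀ θ : ℝ, Real.log X ^ (-δ₀) ≤ θ → ∀ H : ℝ, lam * Real.log X ≤ H → H ≤ X ^ (1 - ϱ) →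
    ∀ (A : Finset ℕ) (C : Finset ℝ), AdmI δ θ X A →
    SpH B H θ X C → Cut A C (fun a c => ZH H (a * c)) δ' := by
  classical
  obtain ⟨δ₀, hδ₀, hmajU⟩ := maj_admU
  refine ⟨δ₀, hδ₀, fun lam ϱ δ B δ' hlam hϱ hδ hB hδ' => ?_⟩
  have hB0 : 0 < B := by linarith
  obtain ⟨C0, hC0, hfm⟩ := fm
  set S : ℝ := C0 * B + 1 with hS
  have hS1 : 1 ≤ S := by
    have : 0 ≤ C0 * B := by positivity
    linarith
  have hS0 : 0 < S := by linarith
  -- parameters
  set δb := min (1 / 10) (δ' / 8) with hδb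
  have hδb0 : 0 < δb := lt_min (by norm_num) (by positivity)
  have hδb1 : δb ≤ 1 / 10 := min_le_left _ _
  have hδb2 : δb ≤ δ' / 8 := min_le_right _ _
  obtain ⟨L0, hL0, hblockH⟩ := blockH δb hδb0 hδb1
  have hL00 : 0 < L0 := by linarith
  set w := min (1 / 8) (δb / 24) with hw
  have hw0 : 0 < w := lt_min (by norm_num) (by positivity)
  have hw1 : w ≤ 1 / 8 := min_le_left _ _
  obtain ⟨κ₀, hκ₀0, hκ₀1, hsmallA⟩ := small_admI δ (δ' / (8 * S)) hδ (by positivity)
  set κ := min κ₀ (δ' / (8 * (C0 * B + 2 * B))) with hκ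
  have hκ0 : 0 < κ := lt_min hκ₀0 (by positivity)
  have hκκ₀ : κ ≤ κ₀ := min_le_left _ _
  have hκ1 : κ ≤ 1 := hκκ₀.trans hκ₀1
  have hκB : C0 * B * κ + 2 * B * κ ≤ δ' / 8 := by
    have h1 : κ ≤ δ' / (8 * (C0 * B + 2 * B)) := min_le_right _ _
    calc C0 * B * κ + 2 * B * κ = (C0 * B + 2 * B) * κ := by ring
      _ ≤ (C0 * B + 2 * B) * (δ' / (8 * (C0 * B + 2 * B))) := by gcongr
      _ = δ' / 8 := by field_simp
  set J : ℕ := ⌊Real.log (1 / κ) / (w / 2)⌋₊ + 1 with hJ
  have hJ1 : (1 : ℝ) ≤ J := by rw [hJ]; push_cast; linarith [Nat.cast_nonneg (α := ℝ) ⌊Real.log (1 / κ) / (w / 2)⌋₊]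
  have hJ0 : (0 : ℝ) < J := by linarith
  have hlogκ : 0 ≤ Real.log (1 / κ) := Real.log_nonneg (by rw [le_div_iff₀ hκ0]; linarith)
  obtain ⟨C1, X1, hC1, hsm⟩ := sm lam κ hlam hκ0
  set M : ℝ := C1 * B with hM
  have hM1 : 1 ≤ M := by rw [hM]; nlinarith
  have hM0 : 0 < M := by linarith
  set s : ℝ := δ' / (16 * J ^ 2) with hs
  have hs0 : 0 < s := by positivity
  set ρ : ℝ := min (s / S) (s ^ 2 / M) with hρ
  have hρ0 : 0 < ρ := lt_min (by positivity) (by positivity)
  have hρ1 : S * ρ ≤ s := by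
    have h1 : ρ ≤ s / S := min_le_left _ _
    rw [le_div_iff₀ hS0] at h1
    linarith
  have hρ2 : ρ * M ≤ s ^ 2 := by
    have h1 : ρ ≤ s ^ 2 / M := min_le_right _ _
    rwa [le_div_iff₀ hM0] at h1
  have hρ3 : ρ ≤ s := by nlinarith
  set B' : ℝ := 20 * B * L0 / ρ + 1 with hB'
  have hB'1 : 1 ≤ B' := by
    have : 0 ≤ 20 * B * L0 / ρ := by positivity
    linarith
  obtain ⟨κb, hκb, hblock⟩ := hblockH B' lam hB'1 hlam
  obtain ⟨μ, T0, hμ, hmaj⟩ := (hmajU 0).2 δ ρ κb hδ hρ0 hκb
  obtain ⟨r₀, Y₀, hr₀, hb⟩ := hblock μ T0 hμ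
  set q : ℝ := min (min r₀ 1 * Real.exp (-(J * w))) κ with hq
  have hq0 : 0 < q := lt_min (mul_pos (lt_min hr₀ one_pos) (Real.exp_pos _)) hκ0
  filter_upwards [hmaj, eventually_ge_atTop 3, eventually_ge_atTop X1, Real.tendsto_log_atTop.eventually_ge_atTop (max Y₀ 0 + J * w),
    (hmajU (J * w)).1, Real.tendsto_log_atTop.eventually_ge_atTop (16 * L0 / lam),
    ev_logpow 0 ϱ q hϱ hq0]
    with X hmj hX3 hX1 hXY hXθ hXL hXq θ hθ0 H hH1 hH2 A C hA hC A' hA' C' hC'
  rw [pow_zero] at hXq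
  have hX0 : 0 < X := by linarith
  have hX1' : 1 < X := by linarith
  have hXθ := hXθ θ hθ0
  have hsA : ∀ A : Finset ℕ, AdmI δ θ X A → ((A.filter (fun a : ℕ => (a : ℝ) < κ₀ * X ^ θ)).card : ℝ) ≤ δ' / (8 * S) * A.card :=
    fun A hA => hsmallA X θ hX0 A hA
  rw [div_le_iff₀ hlam] at hXL
  set ℓ := Real.log X with hℓ
  have hℓ1 : 1 ≤ ℓ := by
    rw [hℓ, Real.le_log_iff_exp_le hX0]
    linarith [Real.exp_one_lt_d9]
  have hH0 : 0 < H := lt_of_lt_of_le (by positivity) hH1
  -- size of H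
  have hXϱ : X ^ (1 - ϱ) * X ^ ϱ = X := by
    rw [← Real.rpow_add hX0]
    have : 1 - ϱ + ϱ = 1 := by ring
    rw [this, Real.rpow_one]
  have hHq : H ≤ q * X := by
    have h1 : H * 1 ≤ X ^ (1 - ϱ) * (q * X ^ ϱ) := mul_le_mul hH2 hXq zero_le_one (by positivity)
    calc H = H * 1 := (mul_one _).symm
      _ ≤ X ^ (1 - ϱ) * (q * X ^ ϱ) := h1
      _ = q * (X ^ (1 - ϱ) * X ^ ϱ) := by ring
      _ = q * X := by rw [hXϱ]
  have hHκ : H ≤ κ * X := hHq.trans (by gcongr; exact min_le_right _ _)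
  have hHr : H ≤ r₀ * (Real.exp (-(J * w)) * X) ∧ H ≤ Real.exp (-(J * w)) * X := by
    have h1 : q ≤ min r₀ 1 * Real.exp (-(J * w)) := min_le_left _ _
    have h2 : q * X ≤ min r₀ 1 * Real.exp (-(J * w)) * X := mul_le_mul_of_nonneg_right h1 hX0.le
    constructor
    · calc H ≤ min r₀ 1 * Real.exp (-(J * w)) * X := hHq.trans h2
        _ ≤ r₀ * Real.exp (-(J * w)) * X := by gcongr; exact min_le_left _ _
        _ = _ := by ring
    · calc H ≤ min r₀ 1 * Real.exp (-(J * w)) * X := hHq.trans h2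
        _ ≤ 1 * Real.exp (-(J * w)) * X := by gcongr; exact min_le_right _ _
        _ = _ := by ring
  have hZ0 : ∀ (a : ℕ) (c : ℝ), 0 ≤ ZH H (a * c) := fun a c => ZH_nonneg hH0.le _
  -- large elements
  obtain ⟨Al, hAl⟩ : ∃ T, T = A'.filter (fun a : ℕ => κ * X ^ θ ≤ (a : ℝ)) := ⟨_, rfl⟩
  obtain ⟨As, hAs⟩ : ∃ T, T = A'.filter (fun a : ℕ => ¬ κ * X ^ θ ≤ (a : ℝ)) := ⟨_, rfl⟩
  obtain ⟨Cl, hCl⟩ : ∃ T, T = C'.filter (fun c => κ * X ^ (1 - θ) ≤ c) := ⟨_, rfl⟩
  obtain ⟨Cs, hCs⟩ : ∃ T, T = C'.filter (fun c => ¬ κ * X ^ (1 - θ) ≤ c) := ⟨_, rfl⟩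
  have hAl' : Al ⊆ A := by rw [hAl]; exact (filter_subset _ _).trans hA'
  have hAs' : As ⊆ A := by rw [hAs]; exact (filter_subset _ _).trans hA'
  have hCl' : Cl ⊆ C := by rw [hCl]; exact (filter_subset _ _).trans hC'
  have hCs' : Cs ⊆ C := by rw [hCs]; exact (filter_subset _ _).trans hC'
  have hcA0 : (0 : ℝ) ≤ A.card := Nat.cast_nonneg _
  have hcC0 : (0 : ℝ) ≤ C.card := Nat.cast_nonneg _
  have hAscard : (As.card : ℝ) ≤ δ' / (8 * S) * A.card := by
    refine le_trans ?_ (hsA A hA)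
    apply Nat.cast_le.2
    apply card_le_card
    intro a ha
    rw [hAs, mem_filter, not_le] at ha
    rw [mem_filter]
    refine ⟨hA' ha.1, lt_of_lt_of_le ha.2 ?_⟩
    exact mul_le_mul_of_nonneg_right hκκ₀ (by positivity)
  have hlongκ : H / X ^ θ ≤ κ * X ^ (1 - θ) := by
    have hXθ0 : 0 < X ^ θ := by positivity
    rw [div_le_iff₀ hXθ0]
    have e : κ * X ^ (1 - θ) * X ^ θ = κ * X := by
      rw [mul_assoc, ← Real.rpow_add hX0]
      have : 1 - θ + θ = 1 := by ring
      rw [this, Real.rpow_one]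
    rw [e]; exact hHκ
  have hCscard : (Cs.card : ℝ) ≤ 2 * B * κ * C.card := by
    have h1 := hC.long hX1' hH0 hB0.le 0 (κ * X ^ (1 - θ)) hlongκ
    have e : X ^ (1 - θ) * X ^ (θ - 1) = 1 := by
      rw [← Real.rpow_add hX0]
      have : 1 - θ + (θ - 1) = 0 := by ring
      rw [this, Real.rpow_zero]
    have e2 : 2 * B * (κ * X ^ (1 - θ)) * X ^ (θ - 1) * C.card = 2 * B * κ * C.card := by
      calc 2 * B * (κ * X ^ (1 - θ)) * X ^ (θ - 1) * C.card = 2 * B * κ * (X ^ (1 - θ) * X ^ (θ - 1)) * C.card := by ring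
        _ = _ := by rw [e, mul_one]
    rw [e2] at h1
    refine le_trans ?_ h1
    apply Nat.cast_le.2
    apply card_le_card
    intro c hc
    have hc2 := hCs' hc
    rw [hCs, mem_filter, not_le] at hc
    rw [mem_filter]
    exact ⟨hc2, (hC.pos c hc2).le, by linarith only [hc.2]⟩
  have hAlcard : (Al.card : ℝ) ≤ A.card := by exact_mod_cast card_le_card hAl'
  have hClcard : (Cl.card : ℝ) ≤ C.card := by exact_mod_cast card_le_card hCl'
  -- first moments
  have hfmA : ∀ a ∈ A, ∀ C2 : Finset ℝ, C2 ⊆ C → ∑ c ∈ C2, ZH H (a * c) ≤ C0 * B * C.card := by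
    intro a ha C2 hC2
    have h1 := hfm B H θ X hX1' hH0 hB0.le C hC a (hA.1 a ha).1 (hA.1 a ha).2 1 one_pos
    rw [mul_one, one_mul] at h1
    have h2 : C.filter (fun c => c ≤ X ^ (1 - θ)) = C := filter_true_of_mem fun c hc => hC.le c hc
    rw [h2] at h1
    exact (sum_le_sum_of_subset_of_nonneg hC2 fun c _ _ => hZ0 a c).trans h1
  have hfmS : ∀ a ∈ A, ∑ c ∈ Cs, ZH H (a * c) ≤ C0 * B * κ * C.card := by
    intro a ha
    refine le_trans ?_ (hfm B H θ X hX1' hH0 hB0.le C hC a (hA.1 a ha).1 (hA.1 a ha).2 κ hκ0)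
    apply sum_le_sum_of_subset_of_nonneg
    · intro c hc
      have hc2 := hCs' hc
      rw [hCs, mem_filter, not_le] at hc
      rw [mem_filter]
      exact ⟨hc2, hc.2.le⟩
    · intro c _ _; exact hZ0 a c
  -- indices
  have hidx : ∀ s t : ℝ, 0 < s → κ * X ^ t ≤ s → s ≤ X ^ t → ⌊(t * ℓ - Real.log s) / (w / 2)⌋₊ < J ∧
      |Real.log s - (t * ℓ - (⌊(t * ℓ - Real.log s) / (w / 2)⌋₊ : ℝ) * (w / 2))| ≤ w / 2 := by
    intro s t hs h1 h2
    have h3 : Real.log s ≤ t * ℓ := by
      have := Real.log_le_log hs h2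
      rwa [Real.log_rpow hX0] at this
    have h4 : t * ℓ - Real.log (1 / κ) ≤ Real.log s := by
      have := Real.log_le_log (by positivity) h1
      rw [Real.log_mul hκ0.ne' (by positivity), Real.log_rpow hX0] at this
      rw [one_div, Real.log_inv]
      linarith only [this]
    have h5 : 0 ≤ (t * ℓ - Real.log s) / (w / 2) := by
      apply div_nonneg _ (by positivity)
      linarith only [h3]
    have h6 := Nat.floor_le h5
    have h7 := Nat.lt_floor_add_one ((t * ℓ - Real.log s) / (w / 2))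
    rw [le_div_iff₀ (by positivity)] at h6
    rw [div_lt_iff₀ (by positivity)] at h7
    constructor
    · rw [hJ, Nat.lt_succ_iff]
      apply Nat.floor_mono
      apply div_le_div_of_nonneg_right _ (by positivity)
      linarith only [h4]
    · rw [abs_le]
      constructor <;> linarith only [h6, h7, hw0]
  have hAlp : ∀ a ∈ Al, 1 ≤ a ∧ κ * X ^ θ ≤ a ∧ (a : ℝ) ≤ X ^ θ := by
    intro a ha
    rw [hAl, mem_filter] at ha
    exact ⟨(hA.1 a (hA' ha.1)).1, ha.2, (hA.1 a (hA' ha.1)).2⟩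
  have hClp : ∀ c ∈ Cl, 0 < c ∧ κ * X ^ (1 - θ) ≤ c ∧ c ≤ X ^ (1 - θ) := by
    intro c hc
    rw [hCl, mem_filter] at hc
    exact ⟨hC.pos c (hC' hc.1), hc.2, hC.le c (hC' hc.1)⟩
  have hlarge : |∑ a ∈ Al, ∑ c ∈ Cl, (ZH H (a * c) - 1)| ≤ δb * (Al.card * Cl.card) + J ^ 2 * (2 * s * (A.card * C.card)) := by
    apply block_sum Al Cl (fun a c => ZH H (a * c) - 1) (fun a : ℕ => ⌊(θ * ℓ - Real.log a) / (w / 2)⌋₊)
      (fun c : ℝ => ⌊((1 - θ) * ℓ - Real.log c) / (w / 2)⌋₊) J
    · intro a ha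
      obtain ⟨h1, h2, h3⟩ := hAlp a ha
      exact (hidx a θ (by exact_mod_cast h1) h2 h3).1
    · intro c hc
      obtain ⟨h1, h2, h3⟩ := hClp c hc
      exact (hidx c (1 - θ) h1 h2 h3).1
    · intro k l hk hl
      obtain ⟨A1, hA1⟩ : ∃ T, T = Al.filter (fun a : ℕ => ⌊(θ * ℓ - Real.log a) / (w / 2)⌋₊ = k) := ⟨_, rfl⟩
      obtain ⟨C1', hC1'⟩ : ∃ T, T = Cl.filter (fun c : ℝ => ⌊((1 - θ) * ℓ - Real.log c) / (w / 2)⌋₊ = l) := ⟨_, rfl⟩
      rw [← hA1, ← hC1']
      have hA1l : A1 ⊆ Al := by rw [hA1]; exact filter_subset _ _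
      have hC1l : C1' ⊆ Cl := by rw [hC1']; exact filter_subset _ _
      have hA1A : A1 ⊆ A := hA1l.trans hAl'
      have hC1C : C1' ⊆ C := hC1l.trans hCl'
      have hA1c : (A1.card : ℝ) ≤ A.card := by exact_mod_cast card_le_card hA1A
      have hC1c : (C1'.card : ℝ) ≤ C.card := by exact_mod_cast card_le_card hC1C
      have hpos1 : 0 ≤ δb * ((A1.card : ℝ) * C1'.card) :=
        mul_nonneg hδb0.le (mul_nonneg (Nat.cast_nonneg _) (Nat.cast_nonneg _))
      have hpos2 : 0 ≤ 2 * s * ((A.card : ℝ) * C.card) :=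
        mul_nonneg (mul_nonneg (by norm_num) hs0.le) (mul_nonneg hcA0 hcC0)
      by_cases hAbig : ρ * A.card ≤ A1.card
      · by_cases hCbig : ρ * C.card ≤ C1'.card
        · -- the main case
          have hkr : (k : ℝ) + 1 ≤ J := by exact_mod_cast hk
          have hlr : (l : ℝ) + 1 ≤ J := by exact_mod_cast hl
          have hk0 : (0 : ℝ) ≤ k := Nat.cast_nonneg k
          have hl0 : (0 : ℝ) ≤ l := Nat.cast_nonneg l
          obtain ⟨V, hV⟩ : ∃ V, V = θ * ℓ - k * (w / 2) := ⟨_, rfl⟩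
          obtain ⟨U, hU⟩ : ∃ U, U = (1 - θ) * ℓ - l * (w / 2) := ⟨_, rfl⟩
          have hA1p : ∀ a ∈ A1, 1 ≤ a ∧ |Real.log a - V| ≤ w / 2 := by
            intro a ha
            rw [hA1, mem_filter] at ha
            obtain ⟨h1, h2, h3⟩ := hAlp a ha.1
            have h4 := (hidx a θ (by exact_mod_cast h1) h2 h3).2
            rw [ha.2] at h4
            rw [hV]
            exact ⟨h1, h4⟩
          have hC1p : ∀ c ∈ C1', 0 < c ∧ |Real.log c - U| ≤ w / 2 := by
            intro c hc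
            rw [hC1', mem_filter] at hc
            obtain ⟨h1, h2, h3⟩ := hClp c hc.1
            have h4 := (hidx c (1 - θ) h1 h2 h3).2
            rw [hc.2] at h4
            rw [hU]
            exact ⟨h1, h4⟩
          have hw2' : 0 ≤ w / 2 := by linarith only [hw0]
          have hkw : (k : ℝ) * (w / 2) ≤ J * w / 2 := by
            have h3 := mul_le_mul_of_nonneg_right (show (k : ℝ) ≤ J by linarith only [hkr]) hw2'
            linarith only [h3]
          have hlw : (l : ℝ) * (w / 2) ≤ J * w / 2 := by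
            have h3 := mul_le_mul_of_nonneg_right (show (l : ℝ) ≤ J by linarith only [hlr]) hw2'
            linarith only [h3]
          have hkw0 : 0 ≤ (k : ℝ) * (w / 2) := mul_nonneg hk0 hw2'
          have hlw0 : 0 ≤ (l : ℝ) * (w / 2) := mul_nonneg hl0 hw2'
          obtain ⟨Y, hYdef⟩ : ∃ Y, Y = V + U := ⟨_, rfl⟩
          have hYle : Y ≤ ℓ := by rw [hYdef, hV, hU]; linarith only [hkw0, hlw0]
          have hYge : ℓ - J * w ≤ Y := by rw [hYdef, hV, hU]; linarith only [hkw, hlw]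
          have hJw : 0 ≤ (J : ℝ) * w := mul_nonneg hJ0.le hw0.le
          have hYY : Y₀ ≤ Y := by
            have := le_max_left Y₀ 0
            linarith only [hXY, hYge, this]
          have hY0 : 0 ≤ Y := by
            have := le_max_right Y₀ 0
            linarith only [hXY, hYge, this]
          have hexpX : Real.exp ℓ = X := Real.exp_log hX0
          have hexpY1 : Real.exp Y ≤ X := by
            rw [← hexpX]; exact Real.exp_le_exp.2 hYle
          have hexpY2 : Real.exp (-(J * w)) * X ≤ Real.exp Y := by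
            rw [← hexpX, ← Real.exp_add]
            exact Real.exp_le_exp.2 (by linarith only [hYge])
          have heY : 0 < Real.exp Y := Real.exp_pos Y
          have hHle : H ≤ r₀ * Real.exp Y := hHr.1.trans (mul_le_mul_of_nonneg_left hexpY2 hr₀.le)
          have hHle2 : H ≤ Real.exp Y := hHr.2.trans hexpY2
          have hHge : lam * Y ≤ H := (mul_le_mul_of_nonneg_left hYle hlam.le).trans hH1
          have hratio : 1 ≤ Real.exp Y / H := by rw [le_div_iff₀ hH0, one_mul]; exact hHle2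
          -- K
          obtain ⟨K, hK⟩ : ∃ K : ℕ, K = ⌈2 * L0 * (Real.exp Y / H)⌉₊ := ⟨_, rfl⟩
          have hK1 : 2 * L0 * (Real.exp Y / H) ≤ K := by rw [hK]; exact Nat.le_ceil _
          have hLr : 1 ≤ L0 * (Real.exp Y / H) := by
            have := mul_le_mul hL0 hratio zero_le_one hL00.le
            linarith only [this]
          have hK2 : (K : ℝ) ≤ 8 * L0 * (Real.exp Y / H) := by
            have h1 : (K : ℝ) < 2 * L0 * (Real.exp Y / H) + 1 := by
              rw [hK]; exact Nat.ceil_lt_add_one (by positivity)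
            have e1 : 8 * L0 * (Real.exp Y / H) = 8 * (L0 * (Real.exp Y / H)) := by ring
            have e2 : 2 * L0 * (Real.exp Y / H) = 2 * (L0 * (Real.exp Y / H)) := by ring
            rw [e1]; rw [e2] at h1
            linarith only [h1, hLr]
          have hKpos : (0 : ℝ) < K := by
            have e2 : 2 * L0 * (Real.exp Y / H) = 2 * (L0 * (Real.exp Y / H)) := by ring
            rw [e2] at hK1
            linarith only [hK1, hLr]
          have hKnat : 1 ≤ K := by
            have : 0 < K := by exact_mod_cast hKpos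
            omega
          have hHX : H / X ≤ 8 * L0 / K := by
            rw [div_le_div_iff₀ hX0 hKpos]
            have h1 : H * (K : ℝ) ≤ H * (8 * L0 * (Real.exp Y / H)) := mul_le_mul_of_nonneg_left hK2 hH0.le
            have e1 : H * (8 * L0 * (Real.exp Y / H)) = 8 * L0 * Real.exp Y := by field_simp
            have h2 : 8 * L0 * Real.exp Y ≤ 8 * L0 * X := mul_le_mul_of_nonneg_left hexpY1 (by linarith only [hL00])
            linarith only [h1, e1, h2]
          have h2K : 2 * (K : ℝ) ≤ X := by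
            have h1 : Real.exp Y / H ≤ X / (lam * ℓ) := by gcongr
            have h2 : 2 * (8 * L0 * (Real.exp Y / H)) ≤ 2 * (8 * L0 * (X / (lam * ℓ))) := by gcongr
            have h3 : 2 * (8 * L0 * (X / (lam * ℓ))) ≤ X := by
              have e1 : 2 * (8 * L0 * (X / (lam * ℓ))) = X * ((16 * L0) / (ℓ * lam)) := by
                field_simp
                ring
              rw [e1]
              have h4 : (16 * L0) / (ℓ * lam) ≤ 1 := by
                rw [div_le_one (by positivity)]; exact hXL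
              calc X * ((16 * L0) / (ℓ * lam)) ≤ X * 1 := mul_le_mul_of_nonneg_left h4 hX0.le
                _ = X := mul_one X
            linarith only [h2, h3, hK2]
          have hw4 : w / 2 ≤ 1 / 2 := by linarith only [hw1]
          have hMj := hmj θ hθ0 A hA A1 hA1A hAbig V (by rw [hV]; linarith only [hkw, hXθ, hJw]) (by rw [hV]; linarith only [hkw0])
            (fun a ha => ((hA1p a ha).2).trans hw4) K h2K
          have hcell : ∀ u : ℝ, ((C1'.filter (fun c => u ≤ Real.log c ∧ Real.log c < u + 1 / K)).card : ℝ) ≤ B' * C1'.card / K := by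
            intro u
            have h1 := hC.cell hX1' hH0 hB0.le hL0 hKnat hHX u
            have h2 : ((C1'.filter (fun c => u ≤ Real.log c ∧ Real.log c < u + 1 / K)).card : ℝ) ≤
                ((C.filter (fun c => u ≤ Real.log c ∧ Real.log c < u + 1 / K)).card : ℝ) := by
              exact_mod_cast card_le_card (filter_subset_filter _ hC1C)
            refine h2.trans (h1.trans ?_)
            apply div_le_div_of_nonneg_right _ hKpos.le
            have h3 : (C.card : ℝ) ≤ C1'.card / ρ := by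
              rw [le_div_iff₀ hρ0]; linarith only [hCbig]
            calc 20 * B * L0 * (C.card : ℝ) ≤ 20 * B * L0 * (C1'.card / ρ) :=
                  mul_le_mul_of_nonneg_left h3 (by positivity)
              _ = 20 * B * L0 / ρ * C1'.card := by ring
              _ ≤ B' * C1'.card := by
                apply mul_le_mul_of_nonneg_right _ (Nat.cast_nonneg _)
                rw [hB']; linarith only
          have hres := hb Y hYY H hHge hHle K hK1 hK2 A1 (fun a ha => (hA1p a ha).1) hMj C1' (fun c hc => (hC1p c hc).1) hcell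
            (by
              intro c hc c' hc'
              have h1 := abs_le.1 (hC1p c hc).2
              have h2 := abs_le.1 (hC1p c' hc').2
              rw [abs_le]; constructor <;> linarith only [h1.1, h1.2, h2.1, h2.2, hw4])
            (by
              intro a ha c hc
              have h1 := abs_le.1 (hA1p a ha).2
              have h2 := abs_le.1 (hC1p c hc).2
              rw [abs_le, hYdef]; constructor <;> linarith only [h1.1, h1.2, h2.1, h2.2])
          linarith only [hres, hpos2]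
        · -- few dilations
          push Not at hCbig
          have h1 := dsum_le A1 C1' (fun a c => ZH H (a * c)) (fun a _ c _ => hZ0 a c) (2 * s * C.card) (by
            intro a ha
            obtain ⟨g1, g2, g3⟩ := hAlp a (hA1l ha)
            have h2 := hsm X hX1 B H θ hH1 hB0.le C hC a g1 g2 g3
            have h3 := sum_sq_small C (fun c => ZH H (a * c)) (fun c _ => hZ0 a c) C1' hC1C ρ M s h2 hCbig.le hs0.le hρ0.le hρ2
            have h4 : (C1'.card : ℝ) ≤ s * C.card := hCbig.le.trans (mul_le_mul_of_nonneg_right hρ3 hcC0)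
            linarith only [h3, h4])
          refine h1.trans ?_
          have h5 : 2 * s * (C.card : ℝ) * A1.card ≤ 2 * s * (A.card * C.card) := by
            calc 2 * s * (C.card : ℝ) * A1.card ≤ 2 * s * C.card * A.card :=
                  mul_le_mul_of_nonneg_left hA1c (mul_nonneg (by linarith only [hs0]) hcC0)
              _ = _ := by ring
          linarith only [h5, hpos1]
      · push Not at hAbig
        have h1 := dsum_le A1 C1' (fun a c => ZH H (a * c)) (fun a _ c _ => hZ0 a c) (S * C.card) (by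
          intro a ha
          have h2 := hfmA a (hA1A ha) C1' hC1C
          rw [hS, add_mul, one_mul]
          linarith only [h2, hC1c])
        refine h1.trans ?_
        have h5 : S * (C.card : ℝ) * A1.card ≤ s * (A.card * C.card) := by
          calc S * (C.card : ℝ) * A1.card ≤ S * C.card * (ρ * A.card) :=
                mul_le_mul_of_nonneg_left hAbig.le (mul_nonneg hS0.le hcC0)
            _ = (S * ρ) * (A.card * C.card) := by ring
            _ ≤ s * (A.card * C.card) := mul_le_mul_of_nonneg_right hρ1 (mul_nonneg hcA0 hcC0)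
        have h6 : 0 ≤ s * ((A.card : ℝ) * C.card) := mul_nonneg hs0.le (mul_nonneg hcA0 hcC0)
        linarith only [h5, hpos1, h6]
  -- assembly
  have e1 : ∑ a ∈ A', ∑ c ∈ C', (ZH H (a * c) - 1) = ∑ a ∈ Al, ∑ c ∈ Cl, (ZH H (a * c) - 1) + ∑ a ∈ Al, ∑ c ∈ Cs, (ZH H (a * c) - 1) +
      ∑ a ∈ As, ∑ c ∈ C', (ZH H (a * c) - 1) := by
    rw [hAl, hAs, hCl, hCs, ← sum_filter_add_sum_filter_not A' (fun a : ℕ => κ * X ^ θ ≤ (a : ℝ)), ← sum_add_distrib]
    congr 1
    apply sum_congr rfl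
    intro a _
    rw [← sum_filter_add_sum_filter_not C' (fun c => κ * X ^ (1 - θ) ≤ c)]
  have b2 := dsum_le Al Cs (fun (a : ℕ) (c : ℝ) => ZH H (a * c)) (fun a _ c _ => hZ0 a c) (δ' / 8 * C.card) (by
    intro a ha
    have h1 := hfmS a (hAl' ha)
    have h2 : C0 * B * κ * (C.card : ℝ) + 2 * B * κ * C.card ≤ δ' / 8 * C.card := by
      rw [← add_mul]
      exact mul_le_mul_of_nonneg_right hκB hcC0
    linarith only [h1, h2, hCscard])
  have hC'card : (C'.card : ℝ) ≤ C.card := by exact_mod_cast card_le_card hC'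
  have b3 := dsum_le As C' (fun (a : ℕ) (c : ℝ) => ZH H (a * c)) (fun a _ c _ => hZ0 a c) (S * C.card) (by
    intro a ha
    have h2 := hfmA a (hAs' ha) C' hC'
    rw [hS, add_mul, one_mul]
    linarith only [h2, hC'card])
  have c1 : δb * ((Al.card : ℝ) * Cl.card) ≤ δ' / 8 * (A.card * C.card) :=
    mul_le_mul hδb2 (mul_le_mul hAlcard hClcard (Nat.cast_nonneg _) (Nat.cast_nonneg _))
      (mul_nonneg (Nat.cast_nonneg _) (Nat.cast_nonneg _)) (by linarith only [hδ'])
  have c2 : (J : ℝ) ^ 2 * (2 * s * (A.card * C.card)) = δ' / 8 * (A.card * C.card) := by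
    rw [hs]
    have h1 : (J : ℝ) ^ 2 * (2 * (δ' / (16 * J ^ 2)) * (A.card * C.card)) = ((J : ℝ) ^ 2 * (2 * (δ' / (16 * J ^ 2)))) * (A.card * C.card) := by ring
    have h2 : (J : ℝ) ^ 2 * (2 * (δ' / (16 * J ^ 2))) = δ' / 8 := by
      field_simp
      norm_num
    rw [h1, h2]
  have c3 : δ' / 8 * (C.card : ℝ) * Al.card ≤ δ' / 8 * (A.card * C.card) := by
    calc δ' / 8 * (C.card : ℝ) * Al.card ≤ δ' / 8 * C.card * A.card :=
          mul_le_mul_of_nonneg_left hAlcard (mul_nonneg (by linarith only [hδ']) hcC0)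
      _ = _ := by ring
  have c4 : S * (C.card : ℝ) * As.card ≤ δ' / 8 * (A.card * C.card) := by
    calc S * (C.card : ℝ) * As.card ≤ S * C.card * (δ' / (8 * S) * A.card) :=
          mul_le_mul_of_nonneg_left hAscard (mul_nonneg hS0.le hcC0)
      _ = (S * (δ' / (8 * S))) * (A.card * C.card) := by ring
      _ = δ' / 8 * (A.card * C.card) := by
        have : S * (δ' / (8 * S)) = δ' / 8 := by field_simp
        rw [this]
  have hpos : 0 ≤ δ' * ((A.card : ℝ) * C.card) := mul_nonneg hδ'.le (mul_nonneg hcA0 hcC0)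
  change |∑ a ∈ A', ∑ c ∈ C', (ZH H (a * c) - 1)| ≤ δ' * (A.card * C.card)
  rw [e1]
  refine (abs_add_le _ _).trans ?_
  have h1 := abs_add_le (∑ a ∈ Al, ∑ c ∈ Cl, (ZH H (a * c) - 1)) (∑ a ∈ Al, ∑ c ∈ Cs, (ZH H (a * c) - 1))
  linarith only [h1, hlarge, b2, b3, c1, c2, c3, c4, hpos]

end Pool.Agent.K4H50.VS
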