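import Pool.Agent.K4H50.VS.A3
import Pool.Agent.Y851.PT.P12
import Pool.Agent.Y851.PU.Q6

/-! All lengths at once for very small dilations, uniformly in the exponent. -/

set_option autoImplicit false

namespace Pool.Agent.K4H50.VS
open Finset Filter
open Pool.Agent.Y851.PS
open Pool.Agent.Y851.PT
open Pool.Agent.Y851.PU

/-- the conclusion of `cutU` -/
def CutP (δ₀ : ℝ) : Prop := ∀ (lam ϱ δ B δ' : ℝ), 0 < lam → 0 < ϱ → 0 < δ → 1 ≤ B → 0 < δ' →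
    ∀ᶠ X : ℝ in atTop, ∀ θ : ℝ, Real.log X ^ (-δ₀) ≤ θ → ∀ H : ℝ, lam * Real.log X ≤ H → H ≤ X ^ (1 - ϱ) →
    ∀ (A : Finset ℕ) (C : Finset ℝ), AdmI δ θ X A →
    SpH B H θ X C → Cut A C (fun a c => ZH H (a * c)) δ'

theorem base2U (δ₀ : ℝ) (hcutP : CutP δ₀) (lam ϱ d B β : ℝ) (hlam : 0 < lam) (hϱ : 0 < ϱ) (hd : 0 < d) (hB : 1 ≤ B) (hβ : 0 < β) :
    ∃ M : ℝ, 1 ≤ M ∧ ∀ δ' : ℝ, 0 < δ' → ∀ᶠ X : ℝ in atTop, ∀ θ : ℝ, Real.log X ^ (-δ₀) ≤ θ → ∀ H : ℝ, lam * Real.log X ≤ H → H ≤ X ^ (1 - ϱ) →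
    ∀ (A : Finset ℕ) (C : Finset ℝ), AdmI d θ X A → (∀ a ∈ A, β * X ^ θ ≤ (a : ℝ)) → SpH B H θ X C →
    0 < H ∧ Cut A C (fun a c => ZH H (a * c)) δ' ∧ ∑ a ∈ A, ∑ c ∈ C, ZH H (a * c) ^ 2 ≤ M * (A.card * C.card) := by
  obtain ⟨C1, X₀, hC1, h2⟩ := sm lam β hlam hβ
  refine ⟨C1 * B, ?_, fun δ' hδ' => ?_⟩
  · calc (1 : ℝ) = 1 * 1 := by norm_num
      _ ≤ C1 * B := mul_le_mul hC1 hB zero_le_one (by linarith only [hC1])
  filter_upwards [eventually_ge_atTop X₀, hcutP lam ϱ d B δ' hlam hϱ hd hB hδ', eventually_gt_atTop 1]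
    with X g2 g3 g4 θ hθ0 H hH1 hH2 A C hA hAβ hC
  have hlog : 0 < Real.log X := Real.log_pos g4
  refine ⟨lt_of_lt_of_le (mul_pos hlam hlog) hH1, g3 θ hθ0 H hH1 hH2 A C hA hC, ?_⟩
  have h3 : ∀ a ∈ A, ∑ c ∈ C, ZH H (a * c) ^ 2 ≤ C1 * B * C.card := fun a ha =>
    h2 X g2 B H θ hH1 (by linarith only [hB]) C hC a (hA.1 a ha).1 (hAβ a ha) (hA.1 a ha).2
  refine (sum_le_sum h3).trans (le_of_eq ?_)
  rw [sum_const, nsmul_eq_mul]; ring

/-- the facts at the net -/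
theorem net_factsU (δ₀ : ℝ) (hcutP : CutP δ₀) (lam β δ η : ℝ) (hlam : 0 < lam) (hβ : 0 < β) (hδ : 0 < δ) (hη : 0 < η) (hη1 : η ≤ 1 / 4) :
    ∃ M : ℝ, 1 ≤ M ∧ ∀ δ' : ℝ, 0 < δ' → ∀ᶠ X : ℝ in atTop, ∀ θ : ℝ, Real.log X ^ (-δ₀) ≤ θ → ∀ A : Finset ℕ, AdmI δ θ X A → (∀ a ∈ A, β * X ^ θ ≤ (a : ℝ)) →
    0 < η * (lam * Real.log X) ∧
    Cut A (Icc 1 ⌊X / (η * (η * (lam * Real.log X)))⌋₊)
      (fun (a k : ℕ) => ZH (η * (lam * Real.log X)) (a * (k * (η * (η * (lam * Real.log X) / X ^ θ))))) δ' ∧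
    ∑ a ∈ A, ∑ k ∈ Icc 1 ⌊X / (η * (η * (lam * Real.log X)))⌋₊,
      ZH (η * (lam * Real.log X)) (a * (k * (η * (η * (lam * Real.log X) / X ^ θ)))) ^ 2 ≤
      M * (A.card * (Icc 1 ⌊X / (η * (η * (lam * Real.log X)))⌋₊).card) := by
  obtain ⟨M, hM, hb⟩ := base2U δ₀ hcutP (η * lam) (1 / 2) δ 12 β (by positivity) (by norm_num) hδ (by norm_num) hβ
  refine ⟨M, hM, fun δ' hδ' => ?_⟩
  have hev : ∀ᶠ X : ℝ in atTop, η * (lam * Real.log X) ≤ X ^ (1 - 1 / 2 : ℝ) := by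
    have h := (isLittleO_log_rpow_atTop (show (0 : ℝ) < 1 - 1 / 2 by norm_num)).bound (show 0 < 1 / (η * lam) by positivity)
    filter_upwards [h, eventually_ge_atTop 1] with X hX hX1
    have h1 := Real.log_nonneg hX1
    rw [Real.norm_eq_abs, Real.norm_eq_abs, abs_of_nonneg h1, abs_of_nonneg (by positivity)] at hX
    calc η * (lam * Real.log X) = η * lam * Real.log X := by ring
      _ ≤ η * lam * (1 / (η * lam) * X ^ (1 - 1 / 2 : ℝ)) := mul_le_mul_of_nonneg_left hX (by positivity)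
      _ = X ^ (1 - 1 / 2 : ℝ) := by field_simp
  have hev2 : ∀ᶠ X : ℝ in atTop, 2 * (η * (η * (lam * Real.log X))) ≤ X := by
    have h := Real.isLittleO_log_id_atTop.bound (show 0 < 1 / (2 * η * η * lam) by positivity)
    filter_upwards [h, eventually_ge_atTop 1] with X hX hX1
    have h1 := Real.log_nonneg hX1
    simp only [id, Real.norm_eq_abs] at hX
    rw [abs_of_nonneg h1, abs_of_nonneg (by linarith only [hX1])] at hX
    calc 2 * (η * (η * (lam * Real.log X))) = 2 * η * η * lam * Real.log X := by ring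
      _ ≤ 2 * η * η * lam * (1 / (2 * η * η * lam) * X) := mul_le_mul_of_nonneg_left hX (by positivity)
      _ = X := by field_simp
  filter_upwards [hb δ' hδ', hev, hev2, eventually_gt_atTop 1] with X h1 h2 h3 h4 θ hθ0 A hA hAβ
  have hX0 : 0 < X := by linarith only [h4]
  have hlog : 0 < Real.log X := Real.log_pos h4
  have hh0 : 0 < η * (lam * Real.log X) := by positivity
  have hsp := net_spread X (η * (lam * Real.log X)) θ η 1 hX0 hh0 hη (by linarith only [hη1]) (by linarith only [hη]) (by norm_num)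
    (by rw [le_div_iff₀ (by positivity)]; exact h3)
  rw [one_mul] at hsp
  have hinj : Function.Injective (fun k : ℕ => (k : ℝ) * (η * (η * (lam * Real.log X) / X ^ θ))) := by
    intro k k' h
    have h5 : (k : ℝ) * (η * (η * (lam * Real.log X) / X ^ θ)) = k' * (η * (η * (lam * Real.log X) / X ^ θ)) := h
    have h6 : 0 < η * (η * (lam * Real.log X) / X ^ θ) := by positivity
    exact_mod_cast mul_right_cancel₀ h6.ne' h5
  obtain ⟨_, hcut, hM2⟩ := h1 θ hθ0 (η * (lam * Real.log X)) (by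
    have : η * lam * Real.log X = η * (lam * Real.log X) := by ring
    rw [this]) h2 A _ hA hAβ hsp
  refine ⟨hh0, cut_image _ hinj hcut, ?_⟩
  rw [card_image_of_injective _ hinj] at hM2
  refine le_trans (le_of_eq ?_) hM2
  apply sum_congr rfl
  intro a _
  rw [sum_image fun x _ y _ hxy => hinj hxy]

lemma admI_pos {δ θ X : ℝ} {A : Finset ℕ} (hδ : 0 < δ) (hX : 1 < X) (hA : AdmI δ θ X A) : (0 : ℝ) < A.card := by
  have hX0 : 0 < X := by linarith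
  exact lt_of_lt_of_le (by positivity) hA.2

theorem geo_coverU (lam ρ β η ζ δ : ℝ) (Q : ℕ) (hlam : 0 < lam) (hρ : 0 < ρ) (hρ1 : ρ ≤ 1) (hβ : 0 < β)
    (hη : 0 < η) (hη1 : η ≤ 1 / 4) (hζ : 0 < ζ) (hζ1 : ζ ≤ 1) (hδ : 0 < δ) (hQ0 : 1 / (η * β) ≤ Q) (hQ : (Q : ℝ) + 2 ≤ ζ / η ^ 2)
    (hQl : ((Q : ℝ) + 1) * (η ^ 2 * lam) ≤ 1) : ∀ᶠ X : ℝ in atTop, ∀ θ : ℝ, ∀ Bad : Finset ℕ, (Bad.card : ℝ) ≤ δ / 2 * (X / Real.log X) →
    ∃ U : Finset ℝ, (U.card : ℝ) ≤ δ * (X / Real.log X) ∧ ∀ y : ℝ, 0 < y → y ≤ X ^ (1 - θ) →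
      (∀ u ∈ U, ¬ (u ≤ y ∧ y ≤ u + Real.log X / X ^ θ)) →
      ∃ k1 : ℕ, 1 ≤ k1 ∧ k1 ≤ ⌊X / (η * (η * (lam * Real.log X)))⌋₊ ∧ k1 ∉ Bad ∧
      ∀ H : ℝ, lam * Real.log X ≤ H → H ≤ X ^ (1 - ρ) →
        Geo (X ^ θ) β η ζ (η * (η * (lam * Real.log X) / X ^ θ)) (η * (lam * Real.log X)) H y k1 Q := by
  have hev1 : ∀ᶠ X : ℝ in atTop, 4 / β ≤ X ^ (ρ / 2) := (tendsto_rpow_atTop (half_pos hρ)).eventually_ge_atTop _
  have hev2 : ∀ᶠ X : ℝ in atTop, Real.exp (Real.log 2 * (1 + η) / η) / β ≤ X ^ (1 - ρ / 2) :=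
    (tendsto_rpow_atTop (show 0 < 1 - ρ / 2 by linarith only [hρ1])).eventually_ge_atTop _
  have hev3 : ∀ᶠ X : ℝ in atTop, 4 / δ ≤ X ^ (ρ / 2) := (tendsto_rpow_atTop (half_pos hρ)).eventually_ge_atTop _
  have hev4 : ∀ᶠ X : ℝ in atTop, Real.log X ≤ δ / 8 * X := by
    have h := Real.isLittleO_log_id_atTop.bound (show 0 < δ / 8 by positivity)
    filter_upwards [h, eventually_ge_atTop 1] with X hX hX1
    have h1 := Real.log_nonneg hX1
    simp only [id, Real.norm_eq_abs] at hX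
    rw [abs_of_nonneg h1, abs_of_nonneg (by linarith only [hX1])] at hX
    exact hX
  filter_upwards [hev1, hev2, hev3, hev4, eventually_ge_atTop 3] with X hX1 hX2 hX3 hX4 hX5 θ Bad hBad
  have hX0 : 0 < X := by linarith only [hX5]
  obtain ⟨ℓ, hℓ⟩ : ∃ ℓ, ℓ = Real.log X := ⟨_, rfl⟩
  have hℓ1 : 1 ≤ ℓ := by
    rw [hℓ, Real.le_log_iff_exp_le hX0]
    have := Real.exp_one_lt_d9
    linarith only [this, hX5]
  have hℓ0 : 0 < ℓ := by linarith only [hℓ1]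
  rw [← hℓ] at hX4 hBad ⊢
  obtain ⟨P, hP⟩ : ∃ P, P = X ^ θ := ⟨_, rfl⟩
  have hP0 : 0 < P := by rw [hP]; positivity
  rw [← hP]
  obtain ⟨l, hl⟩ : ∃ l, l = η * (η * (lam * ℓ) / P) := ⟨_, rfl⟩
  have hl0 : 0 < l := by rw [hl]; positivity
  obtain ⟨h, hh⟩ : ∃ h, h = η * (lam * ℓ) := ⟨_, rfl⟩
  have hh0 : 0 < h := by rw [hh]; positivity
  obtain ⟨L, hL⟩ : ∃ L, L = ℓ / P := ⟨_, rfl⟩
  have hL0 : 0 < L := by rw [hL]; positivity
  have hlL : l = η ^ 2 * lam * L := by rw [hl, hL]; ring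
  have hQlL : ((Q : ℝ) + 1) * l ≤ L := by
    rw [hlL]
    calc ((Q : ℝ) + 1) * (η ^ 2 * lam * L) = ((Q : ℝ) + 1) * (η ^ 2 * lam) * L := by ring
      _ ≤ 1 * L := mul_le_mul_of_nonneg_right hQl hL0.le
      _ = L := one_mul L
  have hlL1 : l ≤ L := by
    refine le_trans ?_ hQlL
    have : ((Q : ℝ) + 1) * l = Q * l + l := by ring
    rw [this]
    have h1 : 0 ≤ (Q : ℝ) * l := mul_nonneg (Nat.cast_nonneg _) hl0.le
    linarith only [h1]
  rw [← hl, ← hh, ← hL]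
  obtain ⟨T, hT⟩ : ∃ T, T = X ^ (1 - θ) := ⟨_, rfl⟩
  have hTl : T = X / (η * h) * l := by
    rw [hT, Real.rpow_sub hX0, Real.rpow_one, hl, hh, ← hP]
    field_simp
  rw [← hT]
  obtain ⟨K, hK⟩ : ∃ K, K = ⌊X / (η * h)⌋₊ := ⟨_, rfl⟩
  rw [← hK]
  obtain ⟨Y, hY⟩ : ∃ Y, Y = X ^ (1 - ρ / 2) / P := ⟨_, rfl⟩
  have hY0 : 0 < Y := by rw [hY]; positivity
  -- the exceptional intervals
  refine ⟨Bad.image (fun k : ℕ => ((k : ℝ) - Q - 1) * l) ∪ (range (⌊Y / L⌋₊ + 1)).image (fun i : ℕ => (i : ℝ) * L) ∪ {T - L}, ?_, ?_⟩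
  · have h1 : ((Bad.image (fun k : ℕ => ((k : ℝ) - Q - 1) * l) ∪ (range (⌊Y / L⌋₊ + 1)).image (fun i : ℕ => (i : ℝ) * L) ∪ {T - L}).card : ℝ) ≤
        Bad.card + ((⌊Y / L⌋₊ : ℝ) + 1) + 1 := by
      have g1 := card_union_le (Bad.image (fun k : ℕ => ((k : ℝ) - Q - 1) * l) ∪ (range (⌊Y / L⌋₊ + 1)).image (fun i : ℕ => (i : ℝ) * L)) {T - L}
      have g2 := card_union_le (Bad.image (fun k : ℕ => ((k : ℝ) - Q - 1) * l)) ((range (⌊Y / L⌋₊ + 1)).image (fun i : ℕ => (i : ℝ) * L))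
      have g3 : (Bad.image (fun k : ℕ => ((k : ℝ) - Q - 1) * l)).card ≤ Bad.card := card_image_le
      have g4 : ((range (⌊Y / L⌋₊ + 1)).image (fun i : ℕ => (i : ℝ) * L)).card ≤ ⌊Y / L⌋₊ + 1 := card_image_le.trans (by rw [card_range])
      have g5 : ({T - L} : Finset ℝ).card = 1 := card_singleton _
      have g6 : (Bad.image (fun k : ℕ => ((k : ℝ) - Q - 1) * l) ∪ (range (⌊Y / L⌋₊ + 1)).image (fun i : ℕ => (i : ℝ) * L) ∪ {T - L}).card ≤
        Bad.card + (⌊Y / L⌋₊ + 1) + 1 := by omega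
      exact_mod_cast g6
    have h2 : (⌊Y / L⌋₊ : ℝ) ≤ Y / L := Nat.floor_le (by positivity)
    have h3 : Y / L = X ^ (1 - ρ / 2) / ℓ := by rw [hY, hL]; field_simp
    have h4 : X ^ (1 - ρ / 2) ≤ δ / 4 * X := by
      have e : X ^ (ρ / 2) * X ^ (1 - ρ / 2) = X := by
        rw [← Real.rpow_add hX0]
        have : ρ / 2 + (1 - ρ / 2) = 1 := by ring
        rw [this, Real.rpow_one]
      have h5 : 4 / δ * X ^ (1 - ρ / 2) ≤ X := by
        calc 4 / δ * X ^ (1 - ρ / 2) ≤ X ^ (ρ / 2) * X ^ (1 - ρ / 2) := mul_le_mul_of_nonneg_right hX3 (by positivity)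
          _ = X := e
      have h6 : X ^ (1 - ρ / 2) = δ / 4 * (4 / δ * X ^ (1 - ρ / 2)) := by field_simp
      rw [h6]
      exact mul_le_mul_of_nonneg_left h5 (by positivity)
    have h5 : X ^ (1 - ρ / 2) / ℓ ≤ δ / 4 * (X / ℓ) := by
      rw [← mul_div_assoc]
      exact div_le_div_of_nonneg_right h4 hℓ0.le
    have h6 : (2 : ℝ) ≤ δ / 4 * (X / ℓ) := by
      rw [← mul_div_assoc, le_div_iff₀ hℓ0]
      linarith only [hX4]
    have h2' := h2.trans (le_of_eq h3)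
    linarith only [h1, h2', h5, h6, hBad]
  · intro y hy0 hyT hyU
    have hyY : Y < y := by
      by_contra hcon
      push Not at hcon
      have h1 : y / L ≤ Y / L := div_le_div_of_nonneg_right hcon hL0.le
      refine hyU ((⌊y / L⌋₊ : ℝ) * L) (mem_union_left _ (mem_union_right _ (mem_image_of_mem (fun i : ℕ => (i : ℝ) * L) ?_))) ⟨?_, ?_⟩
      · rw [mem_range, Nat.lt_succ_iff]
        exact Nat.floor_mono h1
      · rw [← le_div_iff₀ hL0]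
        exact Nat.floor_le (by positivity)
      · have h2 := Nat.lt_floor_add_one (y / L)
        rw [div_lt_iff₀ hL0, add_mul, one_mul] at h2
        exact h2.le
    have hyT2 : y < T - L := by
      have := hyU (T - L) (mem_union_right _ (mem_singleton_self _))
      by_contra hcon
      push Not at hcon
      exact this ⟨hcon, by linarith only [hyT]⟩
    obtain ⟨k1, hk1⟩ : ∃ k1, k1 = ⌈y / l⌉₊ + Q := ⟨_, rfl⟩
    have hc1 := Nat.le_ceil (y / l)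
    have hc2 := Nat.ceil_lt_add_one (show 0 ≤ y / l by positivity)
    rw [div_le_iff₀ hl0] at hc1
    have hk1a : y + Q * l ≤ k1 * l := by
      rw [hk1]
      push_cast
      rw [add_mul]
      linarith only [hc1]
    have hk1b : (k1 : ℝ) * l ≤ y + (Q + 1) * l := by
      have h1 : (k1 : ℝ) ≤ y / l + (Q + 1) := by
        rw [hk1]
        push_cast
        linarith only [hc2]
      have h2 := mul_le_mul_of_nonneg_right h1 hl0.le
      have e : (y / l + ((Q : ℝ) + 1)) * l = y + (Q + 1) * l := by field_simp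
      rw [e] at h2
      exact h2
    have hk1pos : 1 ≤ k1 := by
      have : 0 < ⌈y / l⌉₊ := Nat.ceil_pos.2 (by positivity)
      omega
    refine ⟨k1, hk1pos, ?_, ?_, ?_⟩
    · rw [hK]
      apply Nat.le_floor
      have h1 : (k1 : ℝ) * l ≤ X / (η * h) * l := by
        rw [← hTl]
        linarith only [hk1b, hyT2, hQlL]
      exact le_of_mul_le_mul_right h1 hl0
    · intro hbad
      refine hyU (((k1 : ℝ) - Q - 1) * l) (mem_union_left _ (mem_union_left _ (mem_image_of_mem (fun k : ℕ => ((k : ℝ) - Q - 1) * l) hbad))) ⟨?_, ?_⟩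
      · have e : ((k1 : ℝ) - Q - 1) * l = k1 * l - (Q + 1) * l := by ring
        rw [e]; linarith only [hk1b]
      · have e : ((k1 : ℝ) - Q - 1) * l = k1 * l - Q * l - l := by ring
        rw [e]; linarith only [hk1a, hlL1]
    · intro H hH1 hH2
      have hη2 : 0 < η ^ 2 := pow_pos hη 2
      have hPl : P * l / η ^ 2 = lam * ℓ := by rw [hl]; field_simp
      have hhP : h / (β * P) = 1 / (η * β) * l := by rw [hh, hl]; field_simp
      refine ⟨hP0, hβ, hη, hη1, hζ, hl0, ?_, ?_, ?_, hk1b, hQ, ?_, ?_⟩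
      · rw [hh, hl]; field_simp
      · rw [hPl]; exact hH1
      · rw [hhP]
        have : 1 / (η * β) * l ≤ Q * l := mul_le_mul_of_nonneg_right hQ0 hl0.le
        linarith only [this, hk1a]
      · have h1 : (1 + ζ) * (H / (β * P)) ≤ 2 * (H / (β * P)) := by
          apply mul_le_mul_of_nonneg_right (by linarith only [hζ1])
          have : 0 < H := lt_of_lt_of_le (by positivity) hH1
          positivity
        have h2 : H / (β * P) ≤ X ^ (1 - ρ) / (β * P) := div_le_div_of_nonneg_right hH2 (by positivity)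
        have h3 : X ^ (1 - ρ) / (β * P) ≤ Y / 4 := by
          rw [hY, div_div, div_le_div_iff₀ (by positivity) (by positivity)]
          have e : X ^ (1 - ρ / 2) = X ^ (ρ / 2) * X ^ (1 - ρ) := by rw [← Real.rpow_add hX0]; congr 1; ring
          rw [e]
          have h4 : 4 / β * β ≤ X ^ (ρ / 2) * β := mul_le_mul_of_nonneg_right hX1 hβ.le
          have h5 : 4 / β * β = 4 := by field_simp
          rw [h5] at h4
          have h6 : 4 * (X ^ (1 - ρ) * P) ≤ X ^ (ρ / 2) * β * (X ^ (1 - ρ) * P) := mul_le_mul_of_nonneg_right h4 (by positivity)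
          have e1 : X ^ (1 - ρ) * (P * 4) = 4 * (X ^ (1 - ρ) * P) := by ring
          have e2 : X ^ (ρ / 2) * X ^ (1 - ρ) * (β * P) = X ^ (ρ / 2) * β * (X ^ (1 - ρ) * P) := by ring
          rw [e1, e2]
          exact h6
        linarith only [h1, h2, h3, hyY]
      · have h1 : X ^ (1 - ρ / 2) ≤ P * y := by
          rw [hY, div_lt_iff₀ hP0] at hyY
          linarith only [hyY]
        have h2 : Real.exp (Real.log 2 * (1 + η) / η) ≤ β * P * y := by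
          rw [div_le_iff₀ hβ] at hX2
          have h3 : X ^ (1 - ρ / 2) * β ≤ P * y * β := mul_le_mul_of_nonneg_right h1 hβ.le
          have e : β * P * y = P * y * β := by ring
          rw [e]; linarith only [hX2, h3]
        have h3 : Real.log 2 * (1 + η) / η ≤ Real.log (β * P * y) := by
          rw [Real.le_log_iff_exp_le (by positivity)]
          exact h2
        rw [div_le_iff₀ hη] at h3
        linarith only [h3]

open Classical in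
/-- **All lengths at once**: the average over the whole set. -/
theorem unifAU (δ₀ : ℝ) (hcutP : CutP δ₀) (lam ρ β δ : ℝ) (hlam : 0 < lam) (hρ : 0 < ρ) (hρ1 : ρ ≤ 1) (hβ : 0 < β) (hβ1 : β ≤ 1) (hδ : 0 < δ)
    (hδ1 : δ ≤ 1) : ∃ κ : ℝ, 0 < κ ∧ ∀ᶠ X : ℝ in atTop, ∀ θ : ℝ, Real.log X ^ (-δ₀) ≤ θ → ∀ A : Finset ℕ, AdmI δ θ X A → (∀ a ∈ A, β * X ^ θ ≤ (a : ℝ)) →
    ∃ U : Finset ℝ, (U.card : ℝ) ≤ δ * (X / Real.log X) ∧ ∀ y : ℝ, 0 < y → y ≤ X ^ (1 - θ) →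
      (∀ u ∈ U, ¬ (u ≤ y ∧ y ≤ u + Real.log X / X ^ θ)) → ∀ H : ℝ, lam * Real.log X ≤ H → H ≤ X ^ (1 - ρ) →
      |∑ a ∈ A, ZH H (a * y) - A.card| ≤ δ * A.card ∧
      κ * A.card ≤ ((A.filter (fun a : ℕ => 1 - δ ≤ ZH H (a * y))).card : ℝ) := by
  obtain ⟨σ, hσ⟩ : ∃ σ, σ = δ / 4 := ⟨_, rfl⟩
  have hσ0 : 0 < σ := by rw [hσ]; positivity
  obtain ⟨η, ζ, Q, hη, hη1, hζ, hζ1, hQ0, hQ, hQl, hF1, hF2, hF3⟩ := params β σ lam hβ hβ1 hσ0 (by rw [hσ]; linarith only [hδ1]) hlam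
  obtain ⟨J, hJ⟩ : ∃ J, J = ⌊Real.log (1 / β) / Real.log (1 + η)⌋₊ + 1 := ⟨_, rfl⟩
  have hJ0 : (0 : ℝ) < J := by rw [hJ]; push_cast; positivity
  obtain ⟨M, hM, hnet⟩ := net_factsU δ₀ hcutP lam β δ η hlam hβ hδ hη hη1
  have hM0 : 0 < M := by linarith only [hM]
  obtain ⟨M', hM'⟩ : ∃ M', M' = 4 * M / (δ * (η ^ 2 * lam)) := ⟨_, rfl⟩
  have hM'0 : 0 < M' := by rw [hM']; positivity
  obtain ⟨V, hV⟩ : ∃ V, V = 16 / β ^ 2 * M' := ⟨_, rfl⟩
  have hV0 : 0 < V := by rw [hV]; positivity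
  obtain ⟨δ', hδ'⟩ : ∃ δ', δ' = δ * σ * (η ^ 2 * lam) / (16 * J ^ 2) := ⟨_, rfl⟩
  have hδ'0 : 0 < δ' := by rw [hδ']; positivity
  refine ⟨δ ^ 2 / (4 * V), by positivity, ?_⟩
  filter_upwards [hnet δ' hδ'0, geo_coverU lam ρ β η ζ δ Q hlam hρ hρ1 hβ hη hη1 hζ hζ1 hδ hQ0 hQ hQl, eventually_gt_atTop 1]
    with X h1 h2 h3 θ hθ0 A hA hAβ
  have h2 := h2 θ
  have hX0 : 0 < X := by linarith only [h3]
  have hlog : 0 < Real.log X := Real.log_pos h3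
  have hA0 := admI_pos hδ h3 hA
  obtain ⟨hh0, hcut, hM2⟩ := h1 θ hθ0 A hA hAβ
  obtain ⟨K, hK⟩ : ∃ K, K = ⌊X / (η * (η * (lam * Real.log X)))⌋₊ := ⟨_, rfl⟩
  obtain ⟨l, hl⟩ : ∃ l, l = η * (η * (lam * Real.log X) / X ^ θ) := ⟨_, rfl⟩
  obtain ⟨h, hh⟩ : ∃ h, h = η * (lam * Real.log X) := ⟨_, rfl⟩
  rw [← hK, ← hl, ← hh] at hcut hM2
  simp_rw [← hl, ← hh] at h2
  have hKle : (K : ℝ) ≤ X / Real.log X / (η ^ 2 * lam) := by
    have h4 : (K : ℝ) ≤ X / (η * (η * (lam * Real.log X))) := by rw [hK]; exact Nat.floor_le (by positivity)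
    refine h4.trans (le_of_eq ?_)
    field_simp
  have hcardK : ((Icc 1 K).card : ℝ) = K := by rw [Nat.card_Icc]; simp
  rw [hcardK] at hM2
  -- bad points
  obtain ⟨t, ht⟩ : ∃ t, t = σ * A.card / (2 * J) := ⟨_, rfl⟩
  have ht0 : 0 < t := by rw [ht]; positivity
  obtain ⟨E, hE⟩ : ∃ E : ℕ → ℕ → ℝ, ∀ i k, E i k = |∑ a ∈ A.filter (fun a : ℕ => cls (X ^ θ) β η (a : ℝ) = i), (ZH h (a * (k * l)) - 1)| :=
    ⟨_, fun _ _ => rfl⟩
  obtain ⟨G, hG⟩ : ∃ G : ℕ → ℝ, ∀ k, G k = ∑ a ∈ A, ZH h (a * (k * l)) ^ 2 := ⟨_, fun _ => rfl⟩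
  have hB1 : ∀ i, (((Icc 1 K).filter (Ld (E i) t)).card : ℝ) ≤ 4 * J * δ' / σ * K := by
    intro i
    have h4 := maximal (E i) (fun k => by rw [hE]; exact abs_nonneg _) t ht0 K (2 * (δ' * (A.card * K))) (by
      simp_rw [hE]
      have := cut_class hcut (fun a : ℕ => cls (X ^ θ) β η (a : ℝ) = i)
      rw [hcardK] at this
      exact this)
    refine h4.trans (le_of_eq ?_)
    rw [ht]
    field_simp
    ring
  have hB2 : (((Icc 1 K).filter (Ld G (M' * A.card))).card : ℝ) ≤ M / M' * K := by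
    have h4 := maximal G (fun k => by rw [hG]; exact sum_nonneg fun a _ => sq_nonneg _) (M' * A.card) (by positivity) K (M * (A.card * K)) (by
      simp_rw [hG]
      rw [sum_comm]
      exact hM2)
    refine h4.trans (le_of_eq ?_)
    field_simp
  obtain ⟨Bad, hBad⟩ : ∃ Bad : Finset ℕ, Bad = (range J).biUnion (fun i => (Icc 1 K).filter (Ld (E i) t)) ∪ (Icc 1 K).filter (Ld G (M' * A.card)) :=
    ⟨_, rfl⟩
  have hBadc : (Bad.card : ℝ) ≤ δ / 2 * (X / Real.log X) := by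
    have g1 : (Bad.card : ℝ) ≤ ∑ i ∈ range J, (((Icc 1 K).filter (Ld (E i) t)).card : ℝ) + (((Icc 1 K).filter (Ld G (M' * A.card))).card : ℝ) := by
      rw [hBad]
      have := (card_union_le ((range J).biUnion (fun i => (Icc 1 K).filter (Ld (E i) t))) ((Icc 1 K).filter (Ld G (M' * A.card)))).trans
        (Nat.add_le_add_right card_biUnion_le _)
      exact_mod_cast this
    have g2 : ∑ i ∈ range J, (((Icc 1 K).filter (Ld (E i) t)).card : ℝ) ≤ J * (4 * J * δ' / σ * K) := by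
      refine (sum_le_sum fun i _ => hB1 i).trans (le_of_eq ?_)
      rw [sum_const, card_range, nsmul_eq_mul]
    have g3 : J * (4 * J * δ' / σ * K) ≤ δ / 4 * (X / Real.log X) := by
      calc J * (4 * J * δ' / σ * K) = 4 * J ^ 2 * δ' / σ * K := by ring
        _ ≤ 4 * J ^ 2 * δ' / σ * (X / Real.log X / (η ^ 2 * lam)) := mul_le_mul_of_nonneg_left hKle (by positivity)
        _ = δ / 4 * (X / Real.log X) := by rw [hδ']; field_simp; norm_num
    have g4 : M / M' * K ≤ δ / 4 * (X / Real.log X) := by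
      calc M / M' * K ≤ M / M' * (X / Real.log X / (η ^ 2 * lam)) := mul_le_mul_of_nonneg_left hKle (by positivity)
        _ = δ / 4 * (X / Real.log X) := by rw [hM']; field_simp
    linarith only [g1, g2, g3, g4, hB2]
  obtain ⟨U, hU1, hU2⟩ := h2 Bad hBadc
  refine ⟨U, hU1, fun y hy0 hyT hyU => ?_⟩
  obtain ⟨k1, hk1, hk1K, hk1B, hgeo⟩ := hU2 y hy0 hyT hyU
  have hK' : K = ⌊X / (η * h)⌋₊ := by rw [hK, hh]
  rw [← hK'] at hk1K
  have hmem : k1 ∈ Icc 1 K := mem_Icc.2 ⟨hk1, hk1K⟩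
  rw [hBad, mem_union, not_or, mem_biUnion, mem_filter] at hk1B
  have hn1 : ∀ i < J, ¬ Ld (E i) t k1 := fun i hi hcon =>
    hk1B.1 ⟨i, mem_range.2 hi, mem_filter.2 ⟨hmem, hcon⟩⟩
  have hn2 : ¬ Ld G (M' * A.card) k1 := fun hcon => hk1B.2 ⟨hmem, hcon⟩
  intro H hH1 hH2
  have g := hgeo H hH1 hH2
  have hm1 := family g A (fun a : ℕ => (a : ℝ)) σ t J hJ hAβ (fun a ha => (hA.1 a ha).2) ht0.le (by
    intro i hi m hm1 hm2
    have := not_Ld (hn1 i hi) hm1 hm2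
    simp_rw [hE] at this
    exact this) hF1 hF2 hF3 hζ1
  have hm2 := second g A (fun a : ℕ => (a : ℝ)) (M' * A.card) hAβ (fun a ha => (hA.1 a ha).2) hβ1 (by positivity) (by
    intro m hm1 hm2
    have := not_Ld hn2 hm1 hm2
    simp_rw [hG] at this
    exact this) hζ1
  have e1 : σ * (A.card : ℝ) + 2 * J * t = δ / 2 * A.card := by
    rw [ht, hσ]
    field_simp
    norm_num
  rw [e1] at hm1
  constructor
  · refine hm1.trans ?_
    apply mul_le_mul_of_nonneg_right _ hA0.le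
    linarith only [hδ]
  · apply pz A (fun a : ℕ => ZH H (a * y)) V δ hV0 hδ hδ1
    · have h5 := (abs_le.1 hm1).1
      have e2 : (1 - δ / 2) * (A.card : ℝ) = A.card - δ / 2 * A.card := by ring
      rw [e2]
      linarith only [h5]
    · refine hm2.trans (le_of_eq ?_)
      rw [hV]; ring

open Classical in
/-- **All lengths at once**: boundedly many multiples. -/
theorem unifBU (δ₀ : ℝ) (hcutP : CutP δ₀) (lam ρ β δ : ℝ) (hlam : 0 < lam) (hρ : 0 < ρ) (hρ1 : ρ ≤ 1) (hβ : 0 < β) (hβ1 : β ≤ 1) (hδ : 0 < δ)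
    (hδ1 : δ ≤ 1) : ∃ n₀ : ℕ, 1 ≤ n₀ ∧ ∀ n : ℕ, n₀ ≤ n → ∀ᶠ X : ℝ in atTop, ∀ θ : ℝ, Real.log X ^ (-δ₀) ≤ θ → ∀ A : Finset ℕ, AdmI δ θ X A → (∀ a ∈ A, β * X ^ θ ≤ (a : ℝ)) →
    (((Fintype.piFinset (fun _ : Fin n => A)).filter (fun a => ¬ ∃ U : Finset ℝ, (U.card : ℝ) ≤ δ * (X / Real.log X) ∧
      ∀ y : ℝ, 0 < y → y ≤ X ^ (1 - θ) → (∀ u ∈ U, ¬ (u ≤ y ∧ y ≤ u + Real.log X / X ^ θ)) →
      ∀ H : ℝ, lam * Real.log X ≤ H → H ≤ X ^ (1 - ρ) → |∑ j, ZH H (a j * y) - n| ≤ δ * n)).card : ℝ) ≤ δ * (A.card : ℝ) ^ n := by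
  obtain ⟨σ, hσ⟩ : ∃ σ, σ = δ / 4 := ⟨_, rfl⟩
  have hσ0 : 0 < σ := by rw [hσ]; positivity
  obtain ⟨η, ζ, Q, hη, hη1, hζ, hζ1, hQ0, hQ, hQl, hF1, hF2, hF3⟩ := params β σ lam hβ hβ1 hσ0 (by rw [hσ]; linarith only [hδ1]) hlam
  obtain ⟨J, hJ⟩ : ∃ J, J = ⌊Real.log (1 / β) / Real.log (1 + η)⌋₊ + 1 := ⟨_, rfl⟩
  have hJ0 : (0 : ℝ) < J := by rw [hJ]; push_cast; positivity
  obtain ⟨M, hM, hnet⟩ := net_factsU δ₀ hcutP lam β δ η hlam hβ hδ hη hη1
  have hM0 : 0 < M := by linarith only [hM]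
  obtain ⟨ε, hε⟩ : ∃ ε, ε = δ * σ * (η ^ 2 * lam) / (4 * J ^ 2) := ⟨_, rfl⟩
  have hε0 : 0 < ε := by rw [hε]; positivity
  obtain ⟨δ₅, hδ₅⟩ : ∃ δ₅, δ₅ = ε * δ / J := ⟨_, rfl⟩
  have hδ₅0 : 0 < δ₅ := by rw [hδ₅]; positivity
  refine ⟨⌈4 * (M + 1) / δ₅ ^ 2⌉₊ + 1, by omega, fun n hn => ?_⟩
  have hn1 : 1 ≤ n := by omega
  have hn0 : (0 : ℝ) < n := by exact_mod_cast hn1
  have hnM : 4 * (M + 1) / δ₅ ^ 2 ≤ n := by
    have h1 := Nat.le_ceil (4 * (M + 1) / δ₅ ^ 2)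
    have h2 : ((⌈4 * (M + 1) / δ₅ ^ 2⌉₊ : ℕ) : ℝ) ≤ n := by exact_mod_cast (by omega : ⌈4 * (M + 1) / δ₅ ^ 2⌉₊ ≤ n)
    exact h1.trans h2
  have hev2 : ∀ᶠ X : ℝ in atTop, η * (η * (lam * Real.log X)) ≤ X := by
    have h := Real.isLittleO_log_id_atTop.bound (show 0 < 1 / (η * η * lam) by positivity)
    filter_upwards [h, eventually_ge_atTop 1] with X hX hX1
    have h1 := Real.log_nonneg hX1
    simp only [id, Real.norm_eq_abs] at hX
    rw [abs_of_nonneg h1, abs_of_nonneg (by linarith only [hX1])] at hX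
    calc η * (η * (lam * Real.log X)) = η * η * lam * Real.log X := by ring
      _ ≤ η * η * lam * (1 / (η * η * lam) * X) := mul_le_mul_of_nonneg_left hX (by positivity)
      _ = X := by field_simp
  filter_upwards [hnet (δ₅ / 4) (by positivity), geo_coverU lam ρ β η ζ δ Q hlam hρ hρ1 hβ hη hη1 hζ hζ1 hδ hQ0 hQ hQl, eventually_gt_atTop 1, hev2]
    with X h1 h2 h3 hX4 θ hθ0 A hA hAβ
  have h2 := h2 θ
  have hX0 : 0 < X := by linarith only [h3]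
  have hlog : 0 < Real.log X := Real.log_pos h3
  have hA0 := admI_pos hδ h3 hA
  obtain ⟨hh0, hcut, hM2⟩ := h1 θ hθ0 A hA hAβ
  obtain ⟨K, hK⟩ : ∃ K, K = ⌊X / (η * (η * (lam * Real.log X)))⌋₊ := ⟨_, rfl⟩
  have hK1 : 1 ≤ K := by
    rw [hK]
    apply Nat.le_floor
    rw [Nat.cast_one, le_div_iff₀ (by positivity), one_mul]
    exact hX4
  have hK0 : (0 : ℝ) < K := by exact_mod_cast hK1
  obtain ⟨l, hl⟩ : ∃ l, l = η * (η * (lam * Real.log X) / X ^ θ) := ⟨_, rfl⟩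
  obtain ⟨h, hh⟩ : ∃ h, h = η * (lam * Real.log X) := ⟨_, rfl⟩
  rw [← hK, ← hl, ← hh] at hcut hM2
  simp_rw [← hl, ← hh] at h2
  rw [← hh] at hh0
  have hKle : (K : ℝ) ≤ X / Real.log X / (η ^ 2 * lam) := by
    have h4 : (K : ℝ) ≤ X / (η * (η * (lam * Real.log X))) := by rw [hK]; exact Nat.floor_le (by positivity)
    refine h4.trans (le_of_eq ?_)
    field_simp
  have hcardK : ((Icc 1 K).card : ℝ) = K := by rw [Nat.card_Icc]; simp
  obtain ⟨t, ht⟩ : ∃ t, t = σ * (n : ℝ) / (2 * J) := ⟨_, rfl⟩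
  have ht0 : 0 < t := by rw [ht]; positivity
  obtain ⟨F, hF⟩ : ∃ F : ℕ → (Fin n → ℕ) → ℝ, ∀ i y, F i y = ∑ k ∈ Icc 1 K,
      |∑ j ∈ univ.filter (fun j => cls (X ^ θ) β η ((y j : ℕ) : ℝ) = i), (ZH h (y j * (k * l)) - 1)| := ⟨_, fun _ _ => rfl⟩
  -- few tuples are bad
  have hbad : ∀ i, (((Fintype.piFinset (fun _ : Fin n => A)).filter (fun y => ε * n * K < F i y)).card : ℝ) ≤ δ / J * (A.card : ℝ) ^ n := by
    intro i
    have h4 := lln M δ₅ hM hδ₅0 n hn1 hnM A (Icc 1 K) (fun (a k : ℕ) => ZH h (a * (k * l))) (fun a _ k _ => ZH_nonneg hh0.le _) hcut hM2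
      (fun a : ℕ => cls (X ^ θ) β η (a : ℝ) = i)
    rw [hcardK] at h4
    have h5 := markov (Fintype.piFinset (fun _ : Fin n => A)) (F i) (fun y _ => by
      rw [hF]; exact sum_nonneg fun k _ => abs_nonneg _) (δ₅ * n * (K * (A.card : ℝ) ^ n)) (ε * n * K) (by positivity) (by
        simp_rw [hF]; exact h4) (fun y => ε * n * K < F i y) (fun y _ h => h.le)
    refine h5.trans (le_of_eq ?_)
    rw [hδ₅]
    field_simp
  have hsub : (Fintype.piFinset (fun _ : Fin n => A)).filter (fun a => ¬ ∃ U : Finset ℝ, (U.card : ℝ) ≤ δ * (X / Real.log X) ∧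
      ∀ y : ℝ, 0 < y → y ≤ X ^ (1 - θ) → (∀ u ∈ U, ¬ (u ≤ y ∧ y ≤ u + Real.log X / X ^ θ)) →
      ∀ H : ℝ, lam * Real.log X ≤ H → H ≤ X ^ (1 - ρ) → |∑ j, ZH H (a j * y) - n| ≤ δ * n) ⊆
      (range J).biUnion (fun i => (Fintype.piFinset (fun _ : Fin n => A)).filter (fun y => ε * n * K < F i y)) := by
    intro a ha
    rw [mem_filter] at ha
    obtain ⟨haA, hbd⟩ := ha
    rw [mem_biUnion]
    by_contra hcon
    apply hbd
    have hgood : ∀ i < J, F i a ≤ ε * n * K := by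
      intro i hi
      by_contra h4
      push Not at h4
      exact hcon ⟨i, mem_range.2 hi, mem_filter.2 ⟨haA, h4⟩⟩
    rw [Fintype.mem_piFinset] at haA
    obtain ⟨E, hE⟩ : ∃ E : ℕ → ℕ → ℝ, ∀ i k, E i k = |∑ j ∈ univ.filter (fun j => cls (X ^ θ) β η ((a j : ℕ) : ℝ) = i), (ZH h (a j * (k * l)) - 1)| :=
      ⟨_, fun _ _ => rfl⟩
    have hB1 : ∀ i < J, (((Icc 1 K).filter (Ld (E i) t)).card : ℝ) ≤ 2 * J * ε / σ * K := by
      intro i hi
      have h4 := maximal (E i) (fun k => by rw [hE]; exact abs_nonneg _) t ht0 K (ε * n * K) (by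
        simp_rw [hE]
        have := hgood i hi
        rw [hF] at this
        exact this)
      refine h4.trans (le_of_eq ?_)
      rw [ht]
      field_simp
    obtain ⟨Bad, hBad⟩ : ∃ Bad : Finset ℕ, Bad = (range J).biUnion (fun i => (Icc 1 K).filter (Ld (E i) t)) := ⟨_, rfl⟩
    have hBadc : (Bad.card : ℝ) ≤ δ / 2 * (X / Real.log X) := by
      have g1 : (Bad.card : ℝ) ≤ ∑ i ∈ range J, (((Icc 1 K).filter (Ld (E i) t)).card : ℝ) := by
        rw [hBad]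
        exact_mod_cast card_biUnion_le
      have g2 : ∑ i ∈ range J, (((Icc 1 K).filter (Ld (E i) t)).card : ℝ) ≤ J * (2 * J * ε / σ * K) := by
        refine (sum_le_sum fun i hi => hB1 i (mem_range.1 hi)).trans (le_of_eq ?_)
        rw [sum_const, card_range, nsmul_eq_mul]
      have g3 : J * (2 * J * ε / σ * K) ≤ δ / 2 * (X / Real.log X) := by
        calc J * (2 * J * ε / σ * K) = 2 * J ^ 2 * ε / σ * K := by ring
          _ ≤ 2 * J ^ 2 * ε / σ * (X / Real.log X / (η ^ 2 * lam)) := mul_le_mul_of_nonneg_left hKle (by positivity)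
          _ = δ / 2 * (X / Real.log X) := by rw [hε]; field_simp; norm_num
      linarith only [g1, g2, g3]
    obtain ⟨U, hU1, hU2⟩ := h2 Bad hBadc
    refine ⟨U, hU1, fun y hy0 hyT hyU => ?_⟩
    obtain ⟨k1, hk1, hk1K, hk1B, hgeo⟩ := hU2 y hy0 hyT hyU
    have hK' : K = ⌊X / (η * h)⌋₊ := by rw [hK, hh]
    rw [← hK'] at hk1K
    have hmem : k1 ∈ Icc 1 K := mem_Icc.2 ⟨hk1, hk1K⟩
    rw [hBad, mem_biUnion] at hk1B
    have hn1 : ∀ i < J, ¬ Ld (E i) t k1 := fun i hi hcon =>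
      hk1B ⟨i, mem_range.2 hi, mem_filter.2 ⟨hmem, hcon⟩⟩
    intro H hH1 hH2
    have g := hgeo H hH1 hH2
    have hm1 := family g (univ : Finset (Fin n)) (fun j => ((a j : ℕ) : ℝ)) σ t J hJ (fun j _ => hAβ _ (haA j)) (fun j _ => (hA.1 _ (haA j)).2)
      ht0.le (by
      intro i hi m hm1 hm2
      have := not_Ld (hn1 i hi) hm1 hm2
      simp_rw [hE] at this
      exact this) hF1 hF2 hF3 hζ1
    rw [Finset.card_univ, Fintype.card_fin] at hm1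
    refine hm1.trans ?_
    have e1 : σ * (n : ℝ) + 2 * J * t = δ / 2 * n := by
      rw [ht, hσ]
      field_simp
      norm_num
    rw [e1]
    apply mul_le_mul_of_nonneg_right _ hn0.le
    linarith only [hδ]
  have h5 : (((Fintype.piFinset (fun _ : Fin n => A)).filter (fun a => ¬ ∃ U : Finset ℝ, (U.card : ℝ) ≤ δ * (X / Real.log X) ∧
      ∀ y : ℝ, 0 < y → y ≤ X ^ (1 - θ) → (∀ u ∈ U, ¬ (u ≤ y ∧ y ≤ u + Real.log X / X ^ θ)) →
      ∀ H : ℝ, lam * Real.log X ≤ H → H ≤ X ^ (1 - ρ) → |∑ j, ZH H (a j * y) - n| ≤ δ * n)).card : ℝ) ≤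
      ∑ i ∈ range J, (((Fintype.piFinset (fun _ : Fin n => A)).filter (fun y => ε * n * K < F i y)).card : ℝ) := by
    exact_mod_cast (card_le_card hsub).trans card_biUnion_le
  refine h5.trans ((sum_le_sum fun i _ => hbad i).trans (le_of_eq ?_))
  rw [sum_const, card_range, nsmul_eq_mul]
  field_simp

end Pool.Agent.K4H50.VS
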